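import Mathlib

/-!
# Averages over finite types
-/

set_option autoImplicit false

namespace Pool.Agent.R979.CL

open Finset

/-- The average of a real function over a finite type. -/
noncomputable def avg {α : Type*} [Fintype α] (f : α → ℝ) : ℝ := (∑ a, f a) / Fintype.card α

/-- The indicator of a proposition. -/
noncomputable def ind (P : Prop) : ℝ := by
  classical exact if P then 1 else 0

theorem ind_true {P : Prop} (h : P) : ind P = 1 := by simp [ind, h]
theorem ind_false {P : Prop} (h : ¬ P) : ind P = 0 := by simp [ind, h]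
theorem ind_nonneg (P : Prop) : 0 ≤ ind P := by
  by_cases h : P
  · rw [ind_true h]; norm_num
  · rw [ind_false h]
theorem ind_le_one (P : Prop) : ind P ≤ 1 := by
  by_cases h : P
  · rw [ind_true h]
  · rw [ind_false h]; norm_num
theorem ind_mono {P Q : Prop} (h : P → Q) : ind P ≤ ind Q := by
  by_cases hP : P
  · rw [ind_true hP, ind_true (h hP)]
  · rw [ind_false hP]; exact ind_nonneg Q
theorem ind_congr {P Q : Prop} (h : P ↔ Q) : ind P = ind Q := by
  rw [propext h]
theorem ind_not (P : Prop) : ind (¬ P) = 1 - ind P := by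
  by_cases h : P
  · rw [ind_true h, ind_false (not_not.mpr h)]; norm_num
  · rw [ind_false h, ind_true h]; norm_num
theorem ind_and (P Q : Prop) : ind (P ∧ Q) = ind P * ind Q := by
  by_cases h : P <;> by_cases h' : Q <;> simp [ind, h, h']

section
variable {α β : Type*} [Fintype α] [Fintype β]

theorem avg_nonneg {f : α → ℝ} (h : ∀ a, 0 ≤ f a) : 0 ≤ avg f :=
  div_nonneg (Finset.sum_nonneg fun a _ => h a) (Nat.cast_nonneg _)

theorem avg_mono {f g : α → ℝ} (h : ∀ a, f a ≤ g a) : avg f ≤ avg g :=
  div_le_div_of_nonneg_right (Finset.sum_le_sum fun a _ => h a) (Nat.cast_nonneg _)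

theorem avg_const [Nonempty α] (c : ℝ) : avg (fun _ : α => c) = c := by
  unfold avg
  rw [Finset.sum_const, Finset.card_univ, nsmul_eq_mul]
  have : (Fintype.card α : ℝ) ≠ 0 := by exact_mod_cast Fintype.card_ne_zero
  field_simp

theorem avg_add (f g : α → ℝ) : avg (fun a => f a + g a) = avg f + avg g := by
  unfold avg
  rw [Finset.sum_add_distrib, add_div]

theorem avg_sub (f g : α → ℝ) : avg (fun a => f a - g a) = avg f - avg g := by
  unfold avg
  rw [Finset.sum_sub_distrib, sub_div]

theorem avg_const_mul (c : ℝ) (f : α → ℝ) : avg (fun a => c * f a) = c * avg f := by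
  unfold avg
  rw [← Finset.mul_sum, mul_div_assoc]

theorem avg_mul_const (c : ℝ) (f : α → ℝ) : avg (fun a => f a * c) = avg f * c := by
  unfold avg
  rw [← Finset.sum_mul]
  ring

theorem avg_equiv (e : α ≃ β) (f : β → ℝ) : avg (fun a => f (e a)) = avg f := by
  unfold avg
  rw [Equiv.sum_comp e f, Fintype.card_congr e]

theorem avg_prod (f : α × β → ℝ) : avg f = avg (fun a => avg (fun b => f (a, b))) := by
  unfold avg
  rw [Fintype.sum_prod_type, Fintype.card_prod, ← Finset.sum_div, Nat.cast_mul, div_div,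
    mul_comm (Fintype.card α : ℝ)]

theorem abs_avg_le [Nonempty α] {f : α → ℝ} {c : ℝ} (h : ∀ a, |f a| ≤ c) : |avg f| ≤ c := by
  rw [abs_le]
  constructor
  · have := avg_mono (f := fun _ : α => -c) (g := f) (fun a => (abs_le.mp (h a)).1)
    rwa [avg_const] at this
  · have := avg_mono (g := fun _ : α => c) (f := f) (fun a => (abs_le.mp (h a)).2)
    rwa [avg_const] at this

theorem avg_hom {H K : Type*} [AddGroup H] [AddGroup K] [Fintype H] [Fintype K] (φ : H →+ K)
    (hφ : Function.Surjective φ) (f : K → ℝ) : avg (fun h => f (φ h)) = avg f := by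
  classical
  obtain ⟨c, hc⟩ : ∃ c : ℕ, c = #{g : H | φ g = 0} := ⟨_, rfl⟩
  have hfib : ∀ k : K, #{g : H | φ g = k} = c := by
    intro k
    rw [hc]
    apply AddMonoidHom.card_fiber_eq_of_mem_range φ
    · exact hφ k
    · exact ⟨0, map_zero φ⟩
  have hs : ∀ f : K → ℝ, ∑ h, f (φ h) = c * ∑ k, f k := by
    intro f
    rw [← Finset.sum_fiberwise (s := Finset.univ) (g := φ) (f := fun h => f (φ h))]
    rw [Finset.mul_sum]
    apply Finset.sum_congr rfl
    intro k _
    rw [Finset.sum_congr rfl (g := fun _ => f k)]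
    · rw [Finset.sum_const, hfib, nsmul_eq_mul]
    · intro x hx
      rw [(Finset.mem_filter.mp hx).2]
  have hcard : (Fintype.card H : ℝ) = c * Fintype.card K := by
    have := hs (fun _ => 1)
    simpa using this
  have hc0 : (c : ℝ) ≠ 0 := by
    intro h0
    rw [h0, zero_mul] at hcard
    exact Fintype.card_ne_zero (α := H) (by exact_mod_cast hcard)
  unfold avg
  rw [hs, hcard, mul_div_mul_left _ _ hc0]

end

end Pool.Agent.R979.CL
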