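import Pool.Agent.R979.CL.LinInd

/-!
# The bad event has small probability
-/

set_option autoImplicit false

namespace Pool.Agent.R979.CL

open Finset Module

section push

variable {R M M' : Type} [CommRing R] [AddCommGroup M] [Module R M] [AddCommGroup M'] [Module R M']
  [Fintype R] [Finite M] [Finite M']

noncomputable instance (W : Submodule R M) : Fintype W := Fintype.ofFinite W

theorem avg_map {r : ℕ} (U : Fin r → Submodule R M) (φ : M →ₗ[R] M') (f : (Fin r → M') → ℝ) :
    avg (fun B : ∀ j, U j => f (fun j => φ (B j))) =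
      avg (fun Y : ∀ j, (U j).map φ => f (fun j => (Y j : M'))) := by
  classical
  let ψ : (∀ j, U j) →+ (∀ j, (U j).map φ) :=
    { toFun := fun B j => ⟨φ (B j), Submodule.mem_map_of_mem (B j).2⟩
      map_zero' := by
        funext j
        apply Subtype.ext
        simp
      map_add' := by
        intro x y
        funext j
        apply Subtype.ext
        simp }
  have hψ : Function.Surjective ψ := by
    intro Y
    choose B hB hB' using fun j => (Submodule.mem_map.mp (Y j).2)
    refine ⟨fun j => ⟨B j, hB j⟩, ?_⟩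
    funext j
    apply Subtype.ext
    exact hB' j
  exact avg_hom ψ hψ (fun Y => f (fun j => (Y j : M')))

end push

variable {F : Type} [Field F] [Fintype F]

section
variable {E : Type} [AddCommGroup E] [Module F E] [Finite E]

theorem li_perm {r : ℕ} (W : Fin r → Submodule F E) (e : Equiv.Perm (Fin r)) :
    avg (fun Y : ∀ j : Fin r, W (e j) => ind (LinearIndependent F (fun j => (Y j : E)))) =
    avg (fun Y : ∀ j : Fin r, W j => ind (LinearIndependent F (fun j => (Y j : E)))) := by
  classical
  rw [← avg_equiv (Equiv.piCongrLeft (fun j => W j) e)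
    (fun Y => ind (LinearIndependent F (fun j => (Y j : E))))]
  congr 1
  funext Y
  apply ind_congr
  rw [← linearIndependent_equiv e
    (f := fun j => (((Equiv.piCongrLeft (fun j => W j) e) Y j : W j) : E))]
  apply iff_of_eq
  congr 1
  funext j
  simp only [Function.comp_apply, Equiv.piCongrLeft_apply_apply]

theorem li_bound_any (r : ℕ) (W : Fin (r + 1) → Submodule F E) (hr : r + 1 ≤ finrank F E)
    (hW : ∃ j, W j ≠ ⊤) :
    avg (fun Y : ∀ j : Fin (r + 1), W j => ind (LinearIndependent F (fun j => (Y j : E)))) ≤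
      (1 - (Fintype.card F : ℝ) / (Fintype.card F : ℝ) ^ finrank F E) *
        ∏ i ∈ range r, (1 - (Fintype.card F : ℝ) ^ (i + 1) / (Fintype.card F : ℝ) ^ finrank F E) := by
  classical
  obtain ⟨j, hj⟩ := hW
  rw [← li_perm W (Equiv.swap j (Fin.last r))]
  apply li_bound_last r (fun i => W (Equiv.swap j (Fin.last r) i)) hr
  rw [Equiv.swap_apply_right]
  exact hj

end

/-- `∏_{i=1}^m (1 - q^{-i})`. -/
noncomputable def cc (q : ℝ) (m : ℕ) : ℝ := ∏ i ∈ range m, (1 - q⁻¹ ^ (i + 1))

theorem gp_eq_cc {q : ℝ} (hq : 1 < q) (m : ℕ) : gp q m m = cc q m := by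
  unfold gp cc
  rw [← Finset.prod_range_reflect]
  apply Finset.prod_congr rfl
  intro i hi
  have hi' := Finset.mem_range.mp hi
  congr 1
  have h1 : q ^ m = q ^ (m - 1 - i) * q ^ (i + 1) := by
    rw [← pow_add]; congr 1; omega
  rw [h1, inv_pow]
  have hq0 : (0 : ℝ) < q := by linarith
  have : q ^ (m - 1 - i) ≠ 0 := by positivity
  have : q ^ (i + 1) ≠ 0 := by positivity
  field_simp

theorem gp_mul {q : ℝ} (hq : 1 < q) (l m : ℕ) : gp q l (l + m) * cc q m = cc q (l + m) := by
  rw [← gp_eq_cc hq m, ← gp_eq_cc hq (l + m)]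
  unfold gp
  rw [Finset.prod_range_add]
  congr 1
  apply Finset.prod_congr rfl
  intro i _
  have hq0 : (0 : ℝ) < q := by linarith
  rw [pow_add, pow_add]
  have : q ^ l ≠ 0 := by positivity
  have : q ^ m ≠ 0 := by positivity
  congr 1
  field_simp

theorem cc_succ' {q : ℝ} (hq : 1 < q) (r : ℕ) : cc q (r + 1) =
    (1 - 1 / q ^ (r + 1)) * ∏ i ∈ range r, (1 - q ^ (i + 1) / q ^ (r + 1)) := by
  rw [← gp_eq_cc hq]
  unfold gp
  rw [Finset.prod_range_succ', mul_comm]
  simp

theorem cc_pos {q : ℝ} (hq : 1 < q) (m : ℕ) : 0 < cc q m := by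
  unfold cc
  apply Finset.prod_pos
  intro i _
  have : q⁻¹ ^ (i + 1) < 1 := pow_lt_one₀ (by positivity) (inv_lt_one_of_one_lt₀ hq) (by omega)
  linarith

theorem cc_le_one {q : ℝ} (hq : 1 < q) (m : ℕ) : cc q m ≤ 1 := by
  unfold cc
  apply Finset.prod_le_one
  · intro i _
    have : q⁻¹ ^ (i + 1) < 1 := pow_lt_one₀ (by positivity) (inv_lt_one_of_one_lt₀ hq) (by omega)
    linarith
  · intro i _
    have : 0 < q⁻¹ ^ (i + 1) := by positivity
    linarith

/-- The gain when one of the spaces is too small. -/
noncomputable def kap (q : ℝ) (r : ℕ) : ℝ :=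
  (q - 1) / q ^ (r + 1) * ∏ i ∈ range r, (1 - q ^ (i + 1) / q ^ (r + 1))

theorem kap_pos {q : ℝ} (hq : 1 < q) (r : ℕ) : 0 < kap q r := by
  unfold kap
  apply mul_pos
  · apply div_pos (by linarith) (by positivity)
  · apply Finset.prod_pos
    intro i hi
    have hi' := Finset.mem_range.mp hi
    rw [sub_pos, div_lt_one (by positivity)]
    exact pow_lt_pow_right₀ hq (by omega)

theorem bad_bound {E : Type} [AddCommGroup E] [Module F E] [Finite E] (l r : ℕ)
    (hn : finrank F E = l + (r + 1)) (U : Fin l → Submodule F E) (U' : Fin (r + 1) → Submodule F E)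
    (P0 : ℝ)
    (hP0 : P0 = avg (fun A : ∀ j, U j => avg (fun B : ∀ j, U' j =>
      ind (LinearIndependent F (Sum.elim (fun j => (A j : E)) (fun j => (B j : E))))))) :
    avg (fun A : ∀ j, U j => ind (¬ (LinearIndependent F (fun j => (A j : E)) ∧
      ∀ j, Submodule.span F (Set.range (fun j => (A j : E))) ⊔ U' j = ⊤))) ≤
    (cc (Fintype.card F) (l + (r + 1)) - P0) / kap (Fintype.card F) r + 1 -
      P0 / cc (Fintype.card F) (r + 1) := by
  classical
  have hq := one_lt_q (F := F)
  obtain ⟨q, hqdef⟩ : ∃ q : ℝ, q = (Fintype.card F : ℝ) := ⟨_, rfl⟩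
  rw [← hqdef] at hq ⊢
  have hc := cc_pos hq (r + 1)
  have hk := kap_pos hq r
  -- pointwise bound
  have hpt : ∀ A : ∀ j, U j, avg (fun B : ∀ j, U' j =>
      ind (LinearIndependent F (Sum.elim (fun j => (A j : E)) (fun j => (B j : E))))) ≤
      cc q (r + 1) * ind (LinearIndependent F (fun j => (A j : E))) - kap q r *
        ind (LinearIndependent F (fun j => (A j : E)) ∧
        ¬ ∀ j, Submodule.span F (Set.range (fun j => (A j : E))) ⊔ U' j = ⊤) := by
    intro A
    by_cases hA : LinearIndependent F (fun j => (A j : E))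
    · set V := Submodule.span F (Set.range (fun j => (A j : E))) with hV
      have hVd : finrank F V = l := by
        rw [hV, finrank_span_eq_card hA, Fintype.card_fin]
      have hQd : finrank F (E ⧸ V) = r + 1 := by
        have := Submodule.finrank_quotient_add_finrank V
        omega
      have hQfin : Finite (E ⧸ V) := Quotient.finite _
      have h1 : avg (fun B : ∀ j, U' j =>
          ind (LinearIndependent F (Sum.elim (fun j => (A j : E)) (fun j => (B j : E))))) ≤
          avg (fun B : ∀ j, U' j => ind (LinearIndependent F (fun j => V.mkQ (B j : E)))) := by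
        apply avg_mono
        intro B
        apply ind_mono
        intro hli
        rw [linearIndependent_sum] at hli
        obtain ⟨-, h2, h3⟩ := hli
        have h4 : LinearIndependent F (V.mkQ ∘ (fun j => (B j : E))) := by
          apply LinearIndependent.map h2
          rw [Submodule.ker_mkQ]
          exact h3.symm
        exact h4
      have h2 := avg_map U' V.mkQ (fun Y => ind (LinearIndependent F Y))
      rw [h2] at h1
      rw [ind_true hA, mul_one]
      by_cases hall : ∀ j, V ⊔ U' j = ⊤
      · rw [ind_false (fun h => h.2 hall), mul_zero, sub_zero]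
        refine h1.trans ?_
        have := li_bound (r + 1) (fun j => (U' j).map V.mkQ) (by rw [hQd])
        rw [hQd, ← hqdef, gp_eq_cc hq] at this
        exact this
      · rw [ind_true ⟨hA, hall⟩, mul_one]
        refine h1.trans ?_
        have hex : ∃ j, (U' j).map V.mkQ ≠ ⊤ := by
          push Not at hall
          obtain ⟨j, hj⟩ := hall
          refine ⟨j, fun h => hj ?_⟩
          have := (Submodule.map_mkQ_eq_top V (U' j)).mp h
          exact this
        have := li_bound_any r (fun j => (U' j).map V.mkQ) (by rw [hQd]) hex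
        rw [hQd, ← hqdef] at this
        refine this.trans (le_of_eq ?_)
        rw [cc_succ' hq, kap]
        ring
    · rw [ind_false hA, ind_false (fun h => hA h.1), mul_zero, mul_zero, sub_zero]
      apply le_of_eq
      have : ∀ B : ∀ j, U' j, ind (LinearIndependent F
          (Sum.elim (fun j => (A j : E)) (fun j => (B j : E)))) = 0 := by
        intro B
        apply ind_false
        intro hli
        rw [linearIndependent_sum] at hli
        exact hA hli.1
      simp only [this]
      unfold avg
      simp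
  have h1 : P0 ≤ cc q (r + 1) * avg (fun A : ∀ j, U j => ind (LinearIndependent F
      (fun j => (A j : E)))) - kap q r * avg (fun A : ∀ j, U j =>
        ind (LinearIndependent F (fun j => (A j : E)) ∧
        ¬ ∀ j, Submodule.span F (Set.range (fun j => (A j : E))) ⊔ U' j = ⊤)) := by
    rw [hP0, ← avg_const_mul, ← avg_const_mul, ← avg_sub]
    exact avg_mono hpt
  set a := avg (fun A : ∀ j, U j => ind (LinearIndependent F (fun j => (A j : E)))) with ha
  set b := avg (fun A : ∀ j, U j =>
        ind (LinearIndependent F (fun j => (A j : E)) ∧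
        ¬ ∀ j, Submodule.span F (Set.range (fun j => (A j : E))) ⊔ U' j = ⊤)) with hb
  have hb0 : 0 ≤ b := avg_nonneg fun _ => ind_nonneg _
  have h2 : a ≤ gp q l (l + (r + 1)) := by
    have := li_bound l U (by omega)
    rw [hn, ← hqdef] at this
    exact this
  have h3 : cc q (r + 1) * a ≤ cc q (l + (r + 1)) := by
    rw [← gp_mul hq l (r + 1), mul_comm]
    exact mul_le_mul_of_nonneg_right h2 hc.le
  have h4 : b ≤ (cc q (l + (r + 1)) - P0) / kap q r := by
    rw [le_div_iff₀ hk]
    linarith
  have h5 : P0 / cc q (r + 1) ≤ a := by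
    rw [div_le_iff₀ hc]
    have : 0 ≤ kap q r * b := mul_nonneg hk.le hb0
    linarith
  have h6 : avg (fun A : ∀ j, U j => ind (¬ (LinearIndependent F (fun j => (A j : E)) ∧
      ∀ j, Submodule.span F (Set.range (fun j => (A j : E))) ⊔ U' j = ⊤))) = 1 - a + b := by
    have : ∀ A : ∀ j, U j, ind (¬ (LinearIndependent F (fun j => (A j : E)) ∧
      ∀ j, Submodule.span F (Set.range (fun j => (A j : E))) ⊔ U' j = ⊤)) =
      1 - ind (LinearIndependent F (fun j => (A j : E))) +
      ind (LinearIndependent F (fun j => (A j : E)) ∧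
        ¬ ∀ j, Submodule.span F (Set.range (fun j => (A j : E))) ⊔ U' j = ⊤) := by
      intro A
      rw [ind_not, ind_and, ind_and, ind_not]
      ring
    simp only [this]
    rw [avg_add, avg_sub, avg_const]
  rw [h6]
  linarith

end Pool.Agent.R979.CL
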