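import Pool.Agent.R979.CL.RLevel

/-!
# The cokernel of a uniform square matrix
-/

set_option autoImplicit false

namespace Pool.Agent.R979.CL

open Finset Module

section
variable {p N : ℕ} [hp : Fact p.Prime]

/-- Multiplication by `p`. -/
noncomputable def mulP (p N : ℕ) (M : Type) [AddCommGroup M] [Module (ZMod (p ^ N)) M] :
    M →ₗ[ZMod (p ^ N)] M := LinearMap.lsmul (ZMod (p ^ N)) M (p : ZMod (p ^ N))

theorem card_quot_mulP (M : Type) [AddCommGroup M] [Module (ZMod (p ^ N)) M] [Finite M] :
    Nat.card (M ⧸ LinearMap.range (mulP p N M)) = Nat.card (LinearMap.ker (mulP p N M)) := by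
  have h1 := Submodule.card_eq_card_quotient_mul_card (LinearMap.range (mulP p N M))
  have h2 := Submodule.card_eq_card_quotient_mul_card (LinearMap.ker (mulP p N M))
  have h3 : Nat.card (M ⧸ LinearMap.ker (mulP p N M)) = Nat.card (LinearMap.range (mulP p N M)) :=
    Nat.card_congr (LinearMap.quotKerEquivRange (mulP p N M)).toEquiv
  rw [h3] at h2
  have hpos : 0 < Nat.card (LinearMap.range (mulP p N M)) := Nat.card_pos
  have h4 : Nat.card (LinearMap.range (mulP p N M)) * Nat.card (M ⧸ LinearMap.range (mulP p N M)) =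
      Nat.card (LinearMap.range (mulP p N M)) * Nat.card (LinearMap.ker (mulP p N M)) := by
    linarith
  exact Nat.eq_of_mul_eq_mul_left hpos h4

theorem card_ker_pi (hN : N ≠ 0) (m : ℕ) :
    Nat.card (LinearMap.ker (mulP p N (Fin m → ZMod (p ^ N)))) = p ^ m := by
  rw [← card_quot_mulP]
  let f : (Fin m → ZMod (p ^ N)) →+ (Fin m → ZMod p) :=
    { toFun := fun v i => red p N hN (v i)
      map_zero' := by funext i; simp
      map_add' := by intro x y; funext i; simp }
  have hf : Function.Surjective f := by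
    intro w
    choose g hg using red_surj (p := p) (N := N) hN
    exact ⟨fun i => g (w i), by funext i; exact hg _⟩
  have hk : f.ker = (LinearMap.range (mulP p N (Fin m → ZMod (p ^ N)))).toAddSubgroup := by
    ext v
    constructor
    · intro hv
      have hv' : ∀ i, red p N hN (v i) = 0 := fun i => congrFun hv i
      choose y hy using fun i => red_eq_zero hN (v i) (hv' i)
      exact ⟨y, by funext i; simp [mulP, hy i]⟩
    · rintro ⟨y, rfl⟩
      rw [AddMonoidHom.mem_ker]
      funext i
      simp [f, mulP]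
  have h1 : Nat.card ((Fin m → ZMod (p ^ N)) ⧸ f.ker) = Nat.card (Fin m → ZMod p) :=
    Nat.card_congr (QuotientAddGroup.quotientKerEquivOfSurjective f hf).toEquiv
  rw [hk] at h1
  have h2 : Nat.card (Fin m → ZMod p) = p ^ m := by
    rw [Nat.card_eq_fintype_card, Fintype.card_fun, ZMod.card, Fintype.card_fin]
  rw [← h2, ← h1]
  rfl

theorem p_mul_eq_zero (hN : N ≠ 0) (x : ZMod (p ^ N)) (hx : (p : ZMod (p ^ N)) * x = 0) :
    ∃ y, x = (p : ZMod (p ^ N)) ^ (N - 1) * y := by
  have h1 : x = ((x.val : ℕ) : ZMod (p ^ N)) := by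
    rw [ZMod.natCast_val, ZMod.cast_id]
  rw [h1] at hx
  have h2 : ((p * x.val : ℕ) : ZMod (p ^ N)) = 0 := by push_cast; exact hx
  rw [ZMod.natCast_eq_zero_iff] at h2
  have h3 : p ^ N = p * p ^ (N - 1) := by
    rw [← pow_succ', Nat.sub_add_cancel (Nat.one_le_iff_ne_zero.mpr hN)]
  have h4 : p * p ^ (N - 1) ∣ p * x.val := by rw [← h3]; exact h2
  obtain ⟨k, hk⟩ := Nat.dvd_of_mul_dvd_mul_left hp.out.pos h4
  refine ⟨(k : ZMod (p ^ N)), ?_⟩
  rw [h1, hk]
  push_cast
  rfl

theorem gen_aux (m : ℕ) (M Q : Type) [AddCommGroup M] [Module (ZMod (p ^ N)) M]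
    [Fintype M] [AddCommGroup Q] [Module (ZMod p) Q] [Fintype Q] (π : M →+ Q)
    (hπ : Function.Surjective π) (hker : ∀ x, π x = 0 → ∃ y, x = (p : ZMod (p ^ N)) • y)
    (hcard : Nat.card Q = p ^ m) :
    avg (fun Y : Fin m → M => ind (Submodule.span (ZMod (p ^ N)) (Set.range Y) = ⊤)) =
      cc p m := by
  classical
  have hfr : finrank (ZMod p) Q = m := by
    have h1 := Module.natCard_eq_pow_finrank (K := ZMod p) (V := Q)
    rw [hcard, Nat.card_zmod] at h1
    exact (Nat.pow_right_injective hp.out.two_le h1).symm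
  have hspan : ∀ Y : Fin m → M, (Submodule.span (ZMod (p ^ N)) (Set.range Y) = ⊤) ↔
      LinearIndependent (ZMod p) (fun j => π (Y j)) := by
    intro Y
    have hli : LinearIndependent (ZMod p) (fun j => π (Y j)) ↔
        Submodule.span (ZMod p) (Set.range (fun j => π (Y j))) = ⊤ := by
      constructor
      · intro h
        exact h.span_eq_top_of_card_eq_finrank' (by rw [Fintype.card_fin, hfr])
      · intro h
        exact linearIndependent_of_top_le_span_of_card_eq_finrank h.ge
          (by rw [Fintype.card_fin, hfr])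
    rw [hli]
    constructor
    · intro h
      rw [Submodule.eq_top_iff']
      intro q
      obtain ⟨x, rfl⟩ := hπ q
      have hx : x ∈ Submodule.span (ZMod (p ^ N)) (Set.range Y) := by rw [h]; trivial
      induction hx using Submodule.span_induction with
      | mem x hx =>
        obtain ⟨j, rfl⟩ := hx
        exact Submodule.subset_span ⟨j, rfl⟩
      | zero => rw [map_zero]; exact Submodule.zero_mem _
      | add x y _ _ hx hy =>
        rw [map_add]
        exact Submodule.add_mem _ hx hy
      | smul a x _ hx =>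
        have h1 : a • x = a.val • x := by
          rw [← Nat.cast_smul_eq_nsmul (ZMod (p ^ N)), ZMod.natCast_val, ZMod.cast_id]
        rw [h1, map_nsmul]
        exact Submodule.smul_of_tower_mem _ _ hx
    · intro h
      rw [eq_top_iff]
      apply nak
      intro x _
      have hx : π x ∈ Submodule.span (ZMod p) (Set.range (fun j => π (Y j))) := by
        rw [h]; trivial
      have key : ∀ q ∈ Submodule.span (ZMod p) (Set.range (fun j => π (Y j))),
          ∃ s ∈ Submodule.span (ZMod (p ^ N)) (Set.range Y), π s = q := by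
        intro q hq
        induction hq using Submodule.span_induction with
        | mem q hq =>
          obtain ⟨j, rfl⟩ := hq
          exact ⟨Y j, Submodule.subset_span ⟨j, rfl⟩, rfl⟩
        | zero => exact ⟨0, Submodule.zero_mem _, map_zero _⟩
        | add x y _ _ hx hy =>
          obtain ⟨s, hs, rfl⟩ := hx
          obtain ⟨t, ht, rfl⟩ := hy
          exact ⟨s + t, Submodule.add_mem _ hs ht, map_add _ _ _⟩
        | smul a x _ hx =>
          obtain ⟨s, hs, rfl⟩ := hx
          refine ⟨a.val • s, Submodule.smul_of_tower_mem _ _ hs, ?_⟩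
          rw [map_nsmul, ← Nat.cast_smul_eq_nsmul (ZMod p), ZMod.natCast_val, ZMod.cast_id]
      obtain ⟨s, hs, hs'⟩ := key _ hx
      obtain ⟨y, hy⟩ := hker (x - s) (by rw [map_sub, hs', sub_self])
      refine ⟨s, hs, y, trivial, ?_⟩
      rw [← hy]
      abel
  have h1 : avg (fun Y : Fin m → M => ind (Submodule.span (ZMod (p ^ N)) (Set.range Y) = ⊤)) =
      avg (fun Y : Fin m → M => ind (LinearIndependent (ZMod p) (fun j => π (Y j)))) := by
    congr 1
    funext Y
    exact ind_congr (hspan Y)
  rw [h1]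
  let φ : (Fin m → M) →+ (Fin m → Q) :=
    { toFun := fun Y j => π (Y j)
      map_zero' := by funext j; simp
      map_add' := by intro x y; funext j; simp }
  have hφ : Function.Surjective φ := by
    intro Z
    choose Y hY using fun j => hπ (Z j)
    exact ⟨Y, funext hY⟩
  have h2 := avg_hom φ hφ (fun Z => ind (LinearIndependent (ZMod p) Z))
  have h3 : avg (fun Y : Fin m → M => ind (LinearIndependent (ZMod p) (fun j => π (Y j)))) =
    avg (fun Z : Fin m → Q => ind (LinearIndependent (ZMod p) Z)) := h2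
  rw [h3]
  unfold avg
  have h4 : (∑ Z : Fin m → Q, ind (LinearIndependent (ZMod p) Z)) =
      (Nat.card {Z : Fin m → Q // LinearIndependent (ZMod p) Z} : ℝ) := by
    rw [Nat.card_eq_fintype_card, Fintype.card_subtype, Finset.card_filter]
    push_cast
    apply Finset.sum_congr rfl
    intro y _
    by_cases h : LinearIndependent (ZMod p) y
    · rw [ind_true h, if_pos h]
    · rw [ind_false h, if_neg h]
  have h5 := card_linearIndependent (K := ZMod p) (V := Q) (k := m) (by rw [hfr])
  rw [h4, h5, hfr, ZMod.card]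
  rw [Fintype.card_fun, ← Nat.card_eq_fintype_card (α := Q), hcard, Fintype.card_fin]
  have hq : (1 : ℝ) < p := by exact_mod_cast hp.out.one_lt
  rw [← gp_eq_cc hq, gp]
  rw [← Fin.prod_univ_eq_prod_range (fun i => 1 - (p : ℝ) ^ i / (p : ℝ) ^ m) m]
  push_cast
  have h6 : ((p : ℝ) ^ m) ^ m = ∏ _i : Fin m, (p : ℝ) ^ m := by simp
  rw [h6, ← Finset.prod_div_distrib]
  apply Finset.prod_congr rfl
  intro i _
  have hi : p ^ (i : ℕ) ≤ p ^ m := Nat.pow_le_pow_right hp.out.pos i.2.le
  rw [Nat.cast_sub hi]
  push_cast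
  have : (p : ℝ) ^ m ≠ 0 := by positivity
  field_simp

/-- Uniform vectors of a large submodule generate it with the probability of invertibility. -/
theorem gen_avg (hN : N ≠ 0) (m : ℕ) (K : Submodule (ZMod (p ^ N)) (Fin m → ZMod (p ^ N)))
    (hK : ∀ v : Fin m → ZMod (p ^ N), (p : ZMod (p ^ N)) ^ (N - 1) • v ∈ K) :
    avg (fun Y : Fin m → K => ind (Submodule.span (ZMod (p ^ N)) (Set.range Y) = ⊤)) =
      cc p m := by
  classical
  obtain ⟨P, hP⟩ : ∃ P, P = LinearMap.range (mulP p N K) := ⟨_, rfl⟩
  have hcard : Nat.card (K ⧸ P) = p ^ m := by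
    rw [hP, card_quot_mulP, ← card_ker_pi (p := p) hN m]
    apply Nat.card_congr
    exact
      { toFun := fun x => ⟨(x.1 : Fin m → ZMod (p ^ N)), by
          have h1 : (p : ZMod (p ^ N)) • x.1 = 0 := LinearMap.mem_ker.mp x.2
          exact congrArg (fun z : K => (z : Fin m → ZMod (p ^ N))) h1⟩
        invFun := fun x => ⟨⟨x.1, by
          have hx : (p : ZMod (p ^ N)) • x.1 = 0 := LinearMap.mem_ker.mp x.2
          have hx' : ∀ i, (p : ZMod (p ^ N)) * x.1 i = 0 := fun i => congrFun hx i
          choose y hy using fun i => p_mul_eq_zero hN (x.1 i) (hx' i)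
          have : x.1 = (p : ZMod (p ^ N)) ^ (N - 1) • y := by
            funext i
            simp [hy i]
          rw [this]
          exact hK y⟩, by
          have hx : (p : ZMod (p ^ N)) • x.1 = 0 := LinearMap.mem_ker.mp x.2
          exact LinearMap.mem_ker.mpr (Subtype.ext hx)⟩
        left_inv := fun x => rfl
        right_inv := fun x => rfl }
  have hpz : ∀ q : K ⧸ P, p • q = 0 := by
    intro q
    obtain ⟨x, rfl⟩ := Submodule.mkQ_surjective P q
    rw [← map_nsmul]
    rw [Submodule.mkQ_apply, Submodule.Quotient.mk_eq_zero, hP]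
    refine ⟨x, ?_⟩
    simp [mulP, Nat.cast_smul_eq_nsmul]
  have hfin : Finite (K ⧸ P) := Quotient.finite _
  have hker : ∀ x : K, P.mkQ.toAddMonoidHom x = 0 → ∃ y : K, x = (p : ZMod (p ^ N)) • y := by
    intro x hx
    have h1 : P.mkQ x = 0 := hx
    have h2 : x ∈ P := by
      rw [← Submodule.ker_mkQ P]; exact h1
    rw [hP] at h2
    obtain ⟨y, hy⟩ := h2
    exact ⟨y, hy.symm⟩
  exact @gen_aux p N hp m K (K ⧸ P) _ _ _ _ (AddCommGroup.zmodModule hpz) (Fintype.ofFinite _)
    P.mkQ.toAddMonoidHom (Submodule.mkQ_surjective P) hker hcard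

end

end Pool.Agent.R979.CL
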