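import Pool.Agent.R979.CL.FW

/-!
# The Friedman-Washington formula and its limit
-/

set_option autoImplicit false

namespace Pool.Agent.R979.CL

open Finset Module Filter Topology

theorem sum_ind {α : Type*} [Fintype α] (P : α → Prop) : (∑ a, ind (P a)) = Nat.card {a // P a} := by
  classical
  rw [Nat.card_eq_fintype_card, Fintype.card_subtype, Finset.card_filter]
  push_cast
  apply Finset.sum_congr rfl
  intro y _
  by_cases h : P y
  · rw [ind_true h, if_pos h]
  · rw [ind_false h, if_neg h]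

section
variable {p N : ℕ} [hp : Fact p.Prime]

/-- The linear map with given images of the standard basis. -/
noncomputable def theta (p N : ℕ) {m : ℕ} {G : Type} [AddCommGroup G] [Module (ZMod (p ^ N)) G]
    (g : Fin m → G) : (Fin m → ZMod (p ^ N)) →ₗ[ZMod (p ^ N)] G :=
  Fintype.linearCombination (ZMod (p ^ N)) g

theorem theta_single {m : ℕ} {G : Type} [AddCommGroup G] [Module (ZMod (p ^ N)) G]
    (g : Fin m → G) (i : Fin m) : theta p N g (Pi.single i 1) = g i := by
  classical
  simp only [theta, Fintype.linearCombination_apply]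
  rw [Finset.sum_eq_single i]
  · simp
  · intro b _ hb
    simp [Pi.single_eq_of_ne hb]
  · intro h
    exact absurd (Finset.mem_univ _) h

theorem lin_ext {m : ℕ} {G : Type} [AddCommGroup G] [Module (ZMod (p ^ N)) G]
    (f : (Fin m → ZMod (p ^ N)) →ₗ[ZMod (p ^ N)] G) :
    theta p N (fun i => f (Pi.single i 1)) = f := by
  apply LinearMap.pi_ext'
  intro i
  apply LinearMap.ext_ring
  simp only [LinearMap.coe_comp, LinearMap.coe_single, Function.comp_apply]
  exact theta_single _ i

theorem card_iso {m : ℕ} {G : Type} [AddCommGroup G] [Module (ZMod (p ^ N)) G]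
    (S : Submodule (ZMod (p ^ N)) (Fin m → ZMod (p ^ N))) :
    Nat.card {g : Fin m → G // Function.Surjective (theta p N g) ∧
      LinearMap.ker (theta p N g) = S} = Nat.card (((Fin m → ZMod (p ^ N)) ⧸ S) ≃+ G) := by
  classical
  symm
  have hth : ∀ e : ((Fin m → ZMod (p ^ N)) ⧸ S) ≃+ G, ∀ x : Fin m → ZMod (p ^ N),
      theta p N (fun i => e (S.mkQ (Pi.single i 1))) x = e (S.mkQ x) := by
    intro e x
    let f : (Fin m → ZMod (p ^ N)) →ₗ[ZMod (p ^ N)] G :=
      { toFun := fun x => e (S.mkQ x)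
        map_add' := by intro x y; simp
        map_smul' := by
          intro c x
          simp only [map_smul, RingHom.id_apply]
          exact ZMod.map_smul e c _ }
    have := lin_ext f
    exact congrArg (fun h : (Fin m → ZMod (p ^ N)) →ₗ[ZMod (p ^ N)] G => h x) this
  apply Nat.card_congr
  refine Equiv.ofBijective (fun e => ⟨fun i => e (S.mkQ (Pi.single i 1)), ?_, ?_⟩) ⟨?_, ?_⟩
  · intro y
    obtain ⟨x, hx⟩ := Submodule.mkQ_surjective S (e.symm y)
    refine ⟨x, ?_⟩
    rw [hth e x, hx, AddEquiv.apply_symm_apply]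
  · ext x
    rw [LinearMap.mem_ker, hth e x, AddEquiv.map_eq_zero_iff, ← LinearMap.mem_ker,
      Submodule.ker_mkQ]
  · intro e e' h
    have h1 : (fun i => e (S.mkQ (Pi.single i 1))) = (fun i => e' (S.mkQ (Pi.single i 1))) :=
      congrArg Subtype.val h
    ext x
    obtain ⟨x, rfl⟩ := Submodule.mkQ_surjective S x
    rw [← hth e x, ← hth e' x, h1]
  · rintro ⟨g, hg, hk⟩
    refine ⟨((Submodule.quotEquivOfEq _ _ hk.symm).trans
      (LinearMap.quotKerEquivOfSurjective (theta p N g) hg)).toAddEquiv, ?_⟩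
    apply Subtype.ext
    funext i
    show theta p N g (Pi.single i 1) = g i
    exact theta_single g i

theorem card_iso' (A G : Type) [AddCommGroup A] [AddCommGroup G] :
    (Nat.card (A ≃+ G) : ℝ) = ind (Nonempty (A ≃+ G)) * Nat.card (AddAut G) := by
  by_cases h : Nonempty (A ≃+ G)
  · rw [ind_true h, one_mul]
    obtain ⟨e⟩ := h
    congr 1
    apply Nat.card_congr
    exact
      { toFun := fun f => e.symm.trans f
        invFun := fun f => e.trans f
        left_inv := fun f => by ext x; simp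
        right_inv := fun f => by ext x; simp }
  · rw [ind_false h, zero_mul]
    haveI := not_nonempty_iff.mp h
    rw [Nat.card_of_isEmpty]
    norm_num

theorem sum_gen (hN : N ≠ 0) (m : ℕ) (K : Submodule (ZMod (p ^ N)) (Fin m → ZMod (p ^ N)))
    (hK : ∀ v : Fin m → ZMod (p ^ N), (p : ZMod (p ^ N)) ^ (N - 1) • v ∈ K) :
    (∑ Y : Fin m → Fin m → ZMod (p ^ N),
      ind (K = Submodule.span (ZMod (p ^ N)) (Set.range Y))) = (Nat.card K : ℝ) ^ m * cc p m := by
  classical
  rw [← gen_avg hN m K hK]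
  unfold avg
  rw [sum_ind, sum_ind, Fintype.card_fun, Fintype.card_fin, ← Nat.card_eq_fintype_card (α := K)]
  have hKpos : (Nat.card K : ℝ) ≠ 0 := by
    have : 0 < Nat.card K := Nat.card_pos
    positivity
  push_cast
  rw [mul_div_cancel₀ _ (pow_ne_zero _ hKpos)]
  congr 1
  have hsp : ∀ Y : Fin m → K, Submodule.span (ZMod (p ^ N))
      (Set.range (fun j => (Y j : Fin m → ZMod (p ^ N)))) =
      (Submodule.span (ZMod (p ^ N)) (Set.range Y)).map K.subtype := by
    intro Y
    rw [← Submodule.span_image, ← Set.range_comp]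
    rfl
  apply Nat.card_congr
  refine
    { toFun := fun Y => ⟨fun j => ⟨Y.1 j, ?_⟩, ?_⟩
      invFun := fun Y => ⟨fun j => (Y.1 j : Fin m → ZMod (p ^ N)), ?_⟩
      left_inv := fun Y => rfl
      right_inv := fun Y => rfl }
  · have h1 : Y.1 j ∈ Submodule.span (ZMod (p ^ N)) (Set.range Y.1) :=
      Submodule.subset_span ⟨j, rfl⟩
    exact Y.2.ge h1
  · apply Submodule.map_injective_of_injective K.injective_subtype
    rw [← hsp]
    show Submodule.span (ZMod (p ^ N)) (Set.range (fun j => Y.1 j)) = _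
    rw [Submodule.map_top, Submodule.range_subtype]
    exact Y.2.symm
  · rw [hsp, Y.2, Submodule.map_top, Submodule.range_subtype]

theorem fw_formula (hN : N ≠ 0) (m : ℕ) (G : Type) [AddCommGroup G] [Module (ZMod (p ^ N)) G]
    [Fintype G] (hG : ∀ g : G, (p : ZMod (p ^ N)) ^ (N - 1) • g = 0) :
    avg (fun Y : Fin m → Fin m → ZMod (p ^ N) => ind (Nonempty (Cok (ZMod (p ^ N)) Y ≃+ G))) *
      Nat.card (AddAut G) =
    avg (fun g : Fin m → G => ind (Function.Surjective (theta p N g))) * cc p m := by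
  classical
  have hdouble : (∑ Y : Fin m → Fin m → ZMod (p ^ N), ∑ g : Fin m → G,
      ind (Function.Surjective (theta p N g) ∧ LinearMap.ker (theta p N g) =
        Submodule.span (ZMod (p ^ N)) (Set.range Y))) =
      ∑ g : Fin m → G, ∑ Y : Fin m → Fin m → ZMod (p ^ N),
      ind (Function.Surjective (theta p N g) ∧ LinearMap.ker (theta p N g) =
        Submodule.span (ZMod (p ^ N)) (Set.range Y)) := Finset.sum_comm
  have hl : (∑ Y : Fin m → Fin m → ZMod (p ^ N), ∑ g : Fin m → G,
      ind (Function.Surjective (theta p N g) ∧ LinearMap.ker (theta p N g) =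
        Submodule.span (ZMod (p ^ N)) (Set.range Y))) =
      (∑ Y : Fin m → Fin m → ZMod (p ^ N), ind (Nonempty (Cok (ZMod (p ^ N)) Y ≃+ G))) *
        Nat.card (AddAut G) := by
    rw [Finset.sum_mul]
    apply Finset.sum_congr rfl
    intro Y _
    rw [sum_ind, card_iso, card_iso']
  have hHcard : (Fintype.card (Fin m → ZMod (p ^ N)) : ℝ) = ((p : ℝ) ^ N) ^ m := by
    rw [Fintype.card_fun, ZMod.card, Fintype.card_fin]
    push_cast
    rfl
  have hGpos : (Fintype.card G : ℝ) ≠ 0 := by exact_mod_cast Fintype.card_ne_zero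
  have hr : (∑ g : Fin m → G, ∑ Y : Fin m → Fin m → ZMod (p ^ N),
      ind (Function.Surjective (theta p N g) ∧ LinearMap.ker (theta p N g) =
        Submodule.span (ZMod (p ^ N)) (Set.range Y))) =
      (∑ g : Fin m → G, ind (Function.Surjective (theta p N g))) *
        ((((p : ℝ) ^ N) ^ m / Fintype.card G) ^ m * cc p m) := by
    rw [Finset.sum_mul]
    apply Finset.sum_congr rfl
    intro g _
    simp only [ind_and]
    rw [← Finset.mul_sum]
    by_cases hs : Function.Surjective (theta p N g)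
    · congr 1
      rw [sum_gen hN m (LinearMap.ker (theta p N g)) (by
        intro v
        rw [LinearMap.mem_ker, map_smul]
        exact hG _)]
      congr 2
      have h1 := Submodule.card_eq_card_quotient_mul_card (LinearMap.ker (theta p N g))
      have h2 : Nat.card ((Fin m → ZMod (p ^ N)) ⧸ LinearMap.ker (theta p N g)) = Nat.card G :=
        Nat.card_congr (LinearMap.quotKerEquivOfSurjective (theta p N g) hs).toEquiv
      rw [h2, Nat.card_eq_fintype_card (α := G), Nat.card_eq_fintype_card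
        (α := Fin m → ZMod (p ^ N))] at h1
      rw [← hHcard, h1]
      push_cast
      field_simp
    · rw [ind_false hs, zero_mul, zero_mul]
  rw [hl, hr] at hdouble
  unfold avg
  have hc1 : (Fintype.card (Fin m → Fin m → ZMod (p ^ N)) : ℝ) = (((p : ℝ) ^ N) ^ m) ^ m := by
    rw [Fintype.card_fun, Fintype.card_fin, Nat.cast_pow, hHcard]
  have hc2 : (Fintype.card (Fin m → G) : ℝ) = (Fintype.card G : ℝ) ^ m := by
    rw [Fintype.card_fun, Fintype.card_fin, Nat.cast_pow]
  rw [div_mul_eq_mul_div, hdouble, hc1, hc2]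
  have hp0 : (p : ℝ) ≠ 0 := by exact_mod_cast hp.out.ne_zero
  rw [div_pow]
  field_simp

theorem gen_lower (m : ℕ) (G : Type) [AddCommGroup G] [Module (ZMod (p ^ N)) G]
    [Fintype G] :
    1 - (Nat.card (Submodule (ZMod (p ^ N)) G) : ℝ) * (1 / 2) ^ m ≤
      avg (fun g : Fin m → G => ind (Function.Surjective (theta p N g))) := by
  classical
  haveI : Finite (Submodule (ZMod (p ^ N)) G) := Finite.of_injective _ SetLike.coe_injective
  haveI : Fintype (Submodule (ZMod (p ^ N)) G) := Fintype.ofFinite _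
  have h1 : ∀ g : Fin m → G, 1 - (∑ M : Submodule (ZMod (p ^ N)) G,
      ind (M ≠ ⊤ ∧ ∀ i, g i ∈ M)) ≤ ind (Function.Surjective (theta p N g)) := by
    intro g
    by_cases hs : Function.Surjective (theta p N g)
    · rw [ind_true hs]
      have : 0 ≤ (∑ M : Submodule (ZMod (p ^ N)) G, ind (M ≠ ⊤ ∧ ∀ i, g i ∈ M)) :=
        Finset.sum_nonneg fun _ _ => ind_nonneg _
      linarith
    · rw [ind_false hs]
      have h2 : (1 : ℝ) ≤ ∑ M : Submodule (ZMod (p ^ N)) G, ind (M ≠ ⊤ ∧ ∀ i, g i ∈ M) := by
        have h3 : ind (LinearMap.range (theta p N g) ≠ ⊤ ∧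
            ∀ i, g i ∈ LinearMap.range (theta p N g)) = 1 := by
          apply ind_true
          refine ⟨fun h => hs (LinearMap.range_eq_top.mp h), fun i => ⟨Pi.single i 1, ?_⟩⟩
          exact theta_single g i
        rw [← h3]
        exact Finset.single_le_sum (f := fun M : Submodule (ZMod (p ^ N)) G =>
          ind (M ≠ ⊤ ∧ ∀ i, g i ∈ M)) (fun _ _ => ind_nonneg _) (Finset.mem_univ _)
      linarith
  refine le_trans ?_ (avg_mono h1)
  rw [avg_sub, avg_const]
  apply sub_le_sub_left
  have h2 : avg (fun g : Fin m → G => ∑ M : Submodule (ZMod (p ^ N)) G,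
      ind (M ≠ ⊤ ∧ ∀ i, g i ∈ M)) = ∑ M : Submodule (ZMod (p ^ N)) G,
      avg (fun g : Fin m → G => ind (M ≠ ⊤ ∧ ∀ i, g i ∈ M)) := by
    unfold avg
    rw [Finset.sum_comm, Finset.sum_div]
  rw [h2, Nat.card_eq_fintype_card, ← nsmul_eq_mul, ← Finset.card_univ]
  rw [← Finset.sum_const]
  apply Finset.sum_le_sum
  intro M _
  by_cases hM : M = ⊤
  · have : ∀ g : Fin m → G, ind (M ≠ ⊤ ∧ ∀ i, g i ∈ M) = 0 := fun g => ind_false (fun h => h.1 hM)
    simp only [this, avg_const]
    positivity
  · have h3 : ∀ g : Fin m → G, ind (M ≠ ⊤ ∧ ∀ i, g i ∈ M) = ind (∀ i, g i ∈ M) := by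
      intro g
      exact ind_congr ⟨fun h => h.2, fun h => ⟨hM, h⟩⟩
    simp only [h3]
    unfold avg
    rw [sum_ind, Fintype.card_fun, Fintype.card_fin]
    have h4 : Nat.card {g : Fin m → G // ∀ i, g i ∈ M} = (Nat.card M) ^ m := by
      rw [Nat.card_congr (Equiv.subtypePiEquivPi (p := fun (_ : Fin m) (x : G) => x ∈ M))]
      rw [Nat.card_fun, Nat.card_eq_fintype_card (α := Fin m), Fintype.card_fin]
    rw [h4]
    push_cast
    rw [← div_pow]
    apply pow_le_pow_left₀ (by positivity)
    have h5 := Submodule.card_eq_card_quotient_mul_card M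
    have h6 : 2 ≤ Nat.card (G ⧸ M) := by
      have : 1 < Nat.card (G ⧸ M) := by
        haveI : Finite (G ⧸ M) := Quotient.finite _
        rw [Finite.one_lt_card_iff_nontrivial]
        exact Submodule.Quotient.nontrivial_iff.mpr hM
      exact this
    have hGpos : (0 : ℝ) < Fintype.card G := by exact_mod_cast Fintype.card_pos
    rw [div_le_iff₀ hGpos, ← Nat.card_eq_fintype_card (α := G), h5]
    push_cast
    have h7 : (2 : ℝ) ≤ Nat.card (G ⧸ M) := by exact_mod_cast h6
    have h8 : (0 : ℝ) ≤ Nat.card M := Nat.cast_nonneg _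
    nlinarith

end

end Pool.Agent.R979.CL
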