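import Pool.Agent.R979.CL.FW2

/-!
# Limits
-/

set_option autoImplicit false

namespace Pool.Agent.R979.CL

open Finset Module Filter Topology

/-- The constant `c_p = ∏_{i ≥ 1} (1 - p^{-i})`. -/
noncomputable def cinf (p : ℕ) : ℝ := ∏' i : ℕ, (1 - (p : ℝ)⁻¹ ^ (i + 1))

theorem cc_tendsto (p : ℕ) (hp : 2 ≤ p) : Tendsto (cc (p : ℝ)) atTop (𝓝 (cinf p)) := by
  have h1 : Summable (fun i : ℕ => -((p : ℝ)⁻¹ ^ (i + 1))) := by
    apply Summable.neg
    have : Summable (fun i : ℕ => (p : ℝ)⁻¹ ^ i) := by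
      apply summable_geometric_of_lt_one (by positivity)
      apply inv_lt_one_of_one_lt₀
      exact_mod_cast (by omega : 1 < p)
    exact (summable_nat_add_iff 1).mpr this
  have h2 := (Real.multipliable_one_add_of_summable h1).hasProd.tendsto_prod_nat
  have h3 : (fun i : ℕ => 1 + -((p : ℝ)⁻¹ ^ (i + 1))) = fun i : ℕ => 1 - (p : ℝ)⁻¹ ^ (i + 1) := by
    funext i; ring
  rw [h3] at h2
  exact h2

theorem cc_lower (p : ℕ) (hp : 2 ≤ p) (m : ℕ) : (1 / 4 : ℝ) * (1 + 2 * (1 / 2) ^ (m + 1)) ≤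
    cc (p : ℝ) (m + 1) := by
  have hpinv : (p : ℝ)⁻¹ ≤ 1 / 2 := by
    rw [one_div]
    apply inv_anti₀ (by norm_num)
    exact_mod_cast hp
  have hp0 : (0 : ℝ) ≤ (p : ℝ)⁻¹ := by positivity
  induction m with
  | zero =>
    unfold cc
    simp only [Finset.prod_range_one, zero_add, pow_one]
    linarith
  | succ m ih =>
    unfold cc at ih ⊢
    rw [Finset.prod_range_succ]
    have h1 : (p : ℝ)⁻¹ ^ (m + 1 + 1) ≤ (1 / 2) ^ (m + 1 + 1) := pow_le_pow_left₀ hp0 hpinv _
    obtain ⟨x, hx⟩ : ∃ x : ℝ, x = (1 / 2) ^ (m + 1) := ⟨_, rfl⟩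
    have hx0 : 0 < x := by rw [hx]; positivity
    have hx1 : x ≤ 1 / 2 := by
      rw [hx, pow_succ]
      have : (1 / 2 : ℝ) ^ m ≤ 1 := pow_le_one₀ (by norm_num) (by norm_num)
      linarith
    have hx2 : (1 / 2 : ℝ) ^ (m + 1 + 1) = x / 2 := by rw [pow_succ, ← hx]; ring
    rw [← hx] at ih
    rw [hx2] at h1 ⊢
    have h2 : (0 : ℝ) ≤ 1 - x / 2 := by linarith
    calc (1 / 4 : ℝ) * (1 + 2 * (x / 2)) ≤ (1 / 4 * (1 + 2 * x)) * (1 - x / 2) := by nlinarith
      _ ≤ (∏ x ∈ range (m + 1), (1 - (p : ℝ)⁻¹ ^ (x + 1))) * (1 - x / 2) :=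
          mul_le_mul_of_nonneg_right ih h2
      _ ≤ _ := by
          apply mul_le_mul_of_nonneg_left (by linarith)
          linarith

theorem cinf_pos (p : ℕ) (hp : 2 ≤ p) : 0 < cinf p := by
  have h : (1 / 4 : ℝ) ≤ cinf p := by
    apply ge_of_tendsto (cc_tendsto p hp)
    filter_upwards [eventually_ge_atTop 1] with m hm
    obtain ⟨k, rfl⟩ : ∃ k, m = k + 1 := ⟨m - 1, by omega⟩
    refine le_trans ?_ (cc_lower p hp k)
    have : (0 : ℝ) < (1 / 2) ^ (k + 1) := by positivity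
    linarith
  linarith

/-- The Cohen-Lenstra mass of a finite group. -/
noncomputable def clMass (p : ℕ) (G : Type) [AddCommGroup G] : ℝ :=
  1 / (Nat.card (AddAut G) : ℝ) * cinf p

theorem fw_limit_aux {p N : ℕ} [hp : Fact p.Prime] (hN : N ≠ 0) (G : Type) [AddCommGroup G]
    [Fintype G] [Module (ZMod (p ^ N)) G] (hG : ∀ g : G, p ^ (N - 1) • g = 0) :
    Tendsto (fun m : ℕ => avg (fun Y : Fin m → Fin m → ZMod (p ^ N) =>
      ind (Nonempty (Cok (ZMod (p ^ N)) Y ≃+ G)))) atTop (𝓝 (clMass p G)) := by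
  classical
  have hGm : ∀ g : G, (p : ZMod (p ^ N)) ^ (N - 1) • g = 0 := by
    intro g
    have h1 : (p : ZMod (p ^ N)) ^ (N - 1) = ((p ^ (N - 1) : ℕ) : ZMod (p ^ N)) := by push_cast; rfl
    rw [h1, Nat.cast_smul_eq_nsmul, hG g]
  have haut : (0 : ℝ) < Nat.card (AddAut G) := by
    have : 0 < Nat.card (AddAut G) := by
      haveI : Finite (AddAut G) := Finite.of_injective (fun f : AddAut G => (f : G → G))
        DFunLike.coe_injective
      exact Nat.card_pos
    exact_mod_cast this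
  have h1 : ∀ m : ℕ, avg (fun Y : Fin m → Fin m → ZMod (p ^ N) =>
      ind (Nonempty (Cok (ZMod (p ^ N)) Y ≃+ G))) =
      1 / (Nat.card (AddAut G) : ℝ) * (cc p m *
        avg (fun g : Fin m → G => ind (Function.Surjective (theta p N g)))) := by
    intro m
    have := fw_formula (p := p) hN m G hGm
    field_simp
    linarith
  simp only [h1]
  unfold clMass
  apply Tendsto.const_mul
  have h2 : Tendsto (fun m : ℕ => avg (fun g : Fin m → G =>
      ind (Function.Surjective (theta p N g)))) atTop (𝓝 1) := by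
    refine tendsto_of_tendsto_of_tendsto_of_le_of_le (g := fun m : ℕ =>
      1 - (Nat.card (Submodule (ZMod (p ^ N)) G) : ℝ) * (1 / 2) ^ m) (h := fun _ => 1) ?_
      tendsto_const_nhds (fun m => gen_lower m G) ?_
    · have := (tendsto_pow_atTop_nhds_zero_of_lt_one (r := (1 / 2 : ℝ)) (by norm_num)
        (by norm_num)).const_mul (Nat.card (Submodule (ZMod (p ^ N)) G) : ℝ)
      have h3 := this.const_sub 1
      simpa using h3
    · intro m
      have := avg_mono (f := fun g : Fin m → G => ind (Function.Surjective (theta p N g)))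
        (g := fun _ => 1) (fun _ => ind_le_one _)
      rwa [avg_const] at this
  have h3 := (cc_tendsto p hp.out.two_le).mul h2
  rwa [mul_one] at h3

theorem fw_limit {p N : ℕ} [hp : Fact p.Prime] (hN : N ≠ 0) (G : Type) [AddCommGroup G]
    [Finite G] (hG : ∀ g : G, p ^ (N - 1) • g = 0) :
    Tendsto (fun m : ℕ => avg (fun Y : Fin m → Fin m → ZMod (p ^ N) =>
      ind (Nonempty (Cok (ZMod (p ^ N)) Y ≃+ G)))) atTop (𝓝 (clMass p G)) := by
  have hG' : ∀ g : G, (p ^ N) • g = 0 := by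
    intro g
    have : p ^ N = p * p ^ (N - 1) := by
      rw [← pow_succ', Nat.sub_add_cancel (Nat.one_le_iff_ne_zero.mpr hN)]
    rw [this, mul_smul, hG g, smul_zero]
  exact @fw_limit_aux p N hp hN G _ (Fintype.ofFinite G) (AddCommGroup.zmodModule hG') hG

/-- The probability, at finite level, that the cokernel is `G`. -/
noncomputable def PG (p N n : ℕ) (σ : Fin n → Set (Fin n)) [Fact p.Prime] (G : Type)
    [AddCommGroup G] : ℝ :=
  avg (fun X : ∀ j, colSub (ZMod (p ^ N)) n (σ j) =>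
    ind (Nonempty (Cok (ZMod (p ^ N)) (fun j => (X j : Fin n → ZMod (p ^ N))) ≃+ G)))

/-- The probability of invertibility modulo `p`. -/
noncomputable def P0 (p n : ℕ) (σ : Fin n → Set (Fin n)) [Fact p.Prime] : ℝ :=
  avg (fun X : ∀ j, colSub (ZMod p) n (σ j) =>
    ind (LinearIndependent (ZMod p) (fun j => (X j : Fin n → ZMod p))))

/-- Splitting the columns. -/
theorem avg_split {R : Type} [CommRing R] [Finite R] {n l m : ℕ} (e : Fin l ⊕ Fin m ≃ Fin n)
    (σ : Fin n → Set (Fin n)) (f : ((Fin l ⊕ Fin m) → Fin n → R) → ℝ) :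
    avg (fun X : ∀ j, colSub R n (σ j) => f (fun k => (X (e k) : Fin n → R))) =
    avg (fun A : ∀ j : Fin l, colSub R n (σ (e (Sum.inl j))) =>
      avg (fun B : ∀ j : Fin m, colSub R n (σ (e (Sum.inr j))) =>
        f (Sum.elim (fun j => (A j : Fin n → R)) (fun j => (B j : Fin n → R))))) := by
  classical
  haveI : Fintype R := Fintype.ofFinite _
  rw [← avg_prod (fun AB : (∀ j : Fin l, colSub R n (σ (e (Sum.inl j)))) ×
    (∀ j : Fin m, colSub R n (σ (e (Sum.inr j)))) =>
    f (Sum.elim (fun j => (AB.1 j : Fin n → R)) (fun j => (AB.2 j : Fin n → R))))]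
  rw [← avg_equiv (Equiv.piCongrLeft (fun j => colSub R n (σ j)) e)]
  rw [← avg_equiv (Equiv.sumPiEquivProdPi (fun k => colSub R n (σ (e k))))]
  congr 1
  funext X
  congr 1
  funext k
  rw [Equiv.piCongrLeft_apply_apply]
  cases k <;> rfl

theorem main_bound {p N : ℕ} [hp : Fact p.Prime] (hN : N ≠ 0) (l r n : ℕ)
    (hn : n = l + (r + 1))
    (σ : Fin n → Set (Fin n)) (G : Type) [AddCommGroup G] :
    |PG p N n σ G - avg (fun Y : Fin (r + 1) → Fin (r + 1) → ZMod (p ^ N) =>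
      ind (Nonempty (Cok (ZMod (p ^ N)) Y ≃+ G)))| ≤
    (cc p n - P0 p n σ) / kap p r + 1 - P0 p n σ / cc p (r + 1) := by
  classical
  let e : Fin l ⊕ Fin (r + 1) ≃ Fin n := finSumFinEquiv.trans (finCongr hn.symm)
  set PM := avg (fun Y : Fin (r + 1) → Fin (r + 1) → ZMod (p ^ N) =>
      ind (Nonempty (Cok (ZMod (p ^ N)) Y ≃+ G))) with hPM
  have hPM0 : 0 ≤ PM := avg_nonneg fun _ => ind_nonneg _
  have hPM1 : PM ≤ 1 := by
    have := avg_mono (f := fun Y : Fin (r + 1) → Fin (r + 1) → ZMod (p ^ N) =>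
      ind (Nonempty (Cok (ZMod (p ^ N)) Y ≃+ G))) (g := fun _ => 1) (fun _ => ind_le_one _)
    rwa [avg_const] at this
  -- the two splittings
  have hPG : PG p N n σ G = avg (fun A : ∀ j : Fin l, colSub (ZMod (p ^ N)) n (σ (e (Sum.inl j))) =>
      avg (fun B : ∀ j : Fin (r + 1), colSub (ZMod (p ^ N)) n (σ (e (Sum.inr j))) =>
        ind (Nonempty (Cok (ZMod (p ^ N)) (Sum.elim (fun j => (A j : Fin n → ZMod (p ^ N)))
          (fun j => (B j : Fin n → ZMod (p ^ N)))) ≃+ G)))) := by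
    rw [← avg_split e σ (fun Z => ind (Nonempty (Cok (ZMod (p ^ N)) Z ≃+ G)))]
    unfold PG
    congr 1
    funext X
    apply ind_congr
    have hr : Set.range (fun j => (X j : Fin n → ZMod (p ^ N))) =
        Set.range (fun k => (X (e k) : Fin n → ZMod (p ^ N))) :=
      (e.surjective.range_comp (fun j => (X j : Fin n → ZMod (p ^ N)))).symm
    unfold Cok
    rw [hr]
  have hP0 : P0 p n σ = avg (fun A : ∀ j : Fin l, colSub (ZMod p) n (σ (e (Sum.inl j))) =>
      avg (fun B : ∀ j : Fin (r + 1), colSub (ZMod p) n (σ (e (Sum.inr j))) =>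
        ind (LinearIndependent (ZMod p) (Sum.elim (fun j => (A j : Fin n → ZMod p))
          (fun j => (B j : Fin n → ZMod p)))))) := by
    rw [← avg_split e σ (fun Z => ind (LinearIndependent (ZMod p) Z))]
    unfold P0
    congr 1
    funext X
    apply ind_congr
    rw [← linearIndependent_equiv e (f := fun j => (X j : Fin n → ZMod p))]
    rfl
  have hbad := bad_bound (F := ZMod p) (E := Fin n → ZMod p) l r
    (by rw [finrank_fin_fun]; exact hn)
    (fun j => colSub (ZMod p) n (σ (e (Sum.inl j))))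
    (fun j => colSub (ZMod p) n (σ (e (Sum.inr j)))) (P0 p n σ) hP0
  rw [ZMod.card, ← hn] at hbad
  refine le_trans ?_ hbad
  -- reduction of A
  let ρ : (∀ j : Fin l, colSub (ZMod (p ^ N)) n (σ (e (Sum.inl j)))) →+
      (∀ j : Fin l, colSub (ZMod p) n (σ (e (Sum.inl j)))) :=
    { toFun := fun A j => ⟨fun i => red p N hN ((A j : Fin n → ZMod (p ^ N)) i), by
        intro i hi
        show red p N hN ((A j : Fin n → ZMod (p ^ N)) i) = 0
        rw [(A j).2 i hi, map_zero]⟩
      map_zero' := by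
        funext j
        apply Subtype.ext
        funext i
        simp
      map_add' := by
        intro x y
        funext j
        apply Subtype.ext
        funext i
        simp }
  have hρ : Function.Surjective ρ := by
    intro Z
    choose s hs hs' using fun j => lift_colSub (N := N) hN (σ (e (Sum.inl j))) (Z j).1 (Z j).2
    refine ⟨fun j => ⟨s j, hs j⟩, ?_⟩
    funext j
    apply Subtype.ext
    funext i
    exact hs' j i
  rw [← avg_hom ρ hρ, hPG]
  have hsub : avg (fun A : ∀ j : Fin l, colSub (ZMod (p ^ N)) n (σ (e (Sum.inl j))) =>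
      avg (fun B : ∀ j : Fin (r + 1), colSub (ZMod (p ^ N)) n (σ (e (Sum.inr j))) =>
        ind (Nonempty (Cok (ZMod (p ^ N)) (Sum.elim (fun j => (A j : Fin n → ZMod (p ^ N)))
          (fun j => (B j : Fin n → ZMod (p ^ N)))) ≃+ G)))) - PM =
      avg (fun A : ∀ j : Fin l, colSub (ZMod (p ^ N)) n (σ (e (Sum.inl j))) =>
      (avg (fun B : ∀ j : Fin (r + 1), colSub (ZMod (p ^ N)) n (σ (e (Sum.inr j))) =>
        ind (Nonempty (Cok (ZMod (p ^ N)) (Sum.elim (fun j => (A j : Fin n → ZMod (p ^ N)))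
          (fun j => (B j : Fin n → ZMod (p ^ N)))) ≃+ G))) - PM)) := by
    rw [avg_sub, avg_const]
  rw [hsub]
  have habs : ∀ f g : (∀ j : Fin l, colSub (ZMod (p ^ N)) n (σ (e (Sum.inl j)))) → ℝ,
      (∀ A, |f A| ≤ g A) → |avg f| ≤ avg g := by
    intro f g h
    rw [abs_le]
    constructor
    · have h1 := avg_mono (f := fun A => -1 * g A) (g := f) (fun A => by
        have := (abs_le.mp (h A)).1
        linarith)
      rw [avg_const_mul] at h1
      linarith
    · exact avg_mono (fun A => (abs_le.mp (h A)).2)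
  apply habs
  intro A
  by_cases hgood : LinearIndependent (ZMod p) (fun j => ((ρ A j : colSub (ZMod p) n
      (σ (e (Sum.inl j)))) : Fin n → ZMod p)) ∧ ∀ j : Fin (r + 1),
      Submodule.span (ZMod p) (Set.range (fun j => ((ρ A j : colSub (ZMod p) n
      (σ (e (Sum.inl j)))) : Fin n → ZMod p))) ⊔ colSub (ZMod p) n (σ (e (Sum.inr j))) = ⊤
  · rw [ind_false (not_not.mpr hgood)]
    have h1 := good_avg (p := p) (m := r + 1) hN hn (fun j => (A j : Fin n → ZMod (p ^ N))) hgood.1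
      (fun j => σ (e (Sum.inr j))) hgood.2 G
    rw [h1, hPM, sub_self, abs_zero]
  · rw [ind_true hgood]
    have h1 : 0 ≤ avg (fun B : ∀ j : Fin (r + 1), colSub (ZMod (p ^ N)) n (σ (e (Sum.inr j))) =>
        ind (Nonempty (Cok (ZMod (p ^ N)) (Sum.elim (fun j => (A j : Fin n → ZMod (p ^ N)))
          (fun j => (B j : Fin n → ZMod (p ^ N)))) ≃+ G))) := avg_nonneg fun _ => ind_nonneg _
    have h2 : avg (fun B : ∀ j : Fin (r + 1), colSub (ZMod (p ^ N)) n (σ (e (Sum.inr j))) =>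
        ind (Nonempty (Cok (ZMod (p ^ N)) (Sum.elim (fun j => (A j : Fin n → ZMod (p ^ N)))
          (fun j => (B j : Fin n → ZMod (p ^ N)))) ≃+ G))) ≤ 1 := by
      refine (avg_mono (g := fun _ => 1) (fun _ => ind_le_one _)).trans ?_
      rw [avg_const]
    rw [abs_le]
    constructor <;> linarith

theorem PG_tendsto {p N : ℕ} [hp : Fact p.Prime] (hN : N ≠ 0)
    (σ : ∀ n, Fin n → Set (Fin n)) (h0 : Tendsto (fun n => P0 p n (σ n)) atTop (𝓝 (cinf p)))
    (G : Type) [AddCommGroup G] [Finite G] (hG : ∀ g : G, p ^ (N - 1) • g = 0) :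
    Tendsto (fun n => PG p N n (σ n) G) atTop (𝓝 (clMass p G)) := by
  have hc := cinf_pos p hp.out.two_le
  rw [Metric.tendsto_atTop]
  intro ε hε
  have hfw := (fw_limit (p := p) hN G hG)
  have hcc := cc_tendsto p hp.out.two_le
  have h1 : ∀ᶠ m in atTop, |avg (fun Y : Fin m → Fin m → ZMod (p ^ N) =>
      ind (Nonempty (Cok (ZMod (p ^ N)) Y ≃+ G))) - clMass p G| < ε / 3 := by
    have := (Metric.tendsto_nhds.mp hfw) (ε / 3) (by positivity)
    simpa [Real.dist_eq] using this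
  have h2 : ∀ᶠ m in atTop, 1 - cinf p / cc p m < ε / 3 := by
    have h3 : Tendsto (fun m => 1 - cinf p / cc p m) atTop (𝓝 (1 - cinf p / cinf p)) :=
      (tendsto_const_nhds.div hcc hc.ne').const_sub 1
    rw [div_self hc.ne', sub_self] at h3
    exact h3.eventually (gt_mem_nhds (by positivity))
  obtain ⟨m, ⟨hm1, hm2⟩, hm3⟩ := ((h1.and h2).and (eventually_ge_atTop 1)).exists
  obtain ⟨r, rfl⟩ : ∃ r, m = r + 1 := ⟨m - 1, by omega⟩
  have h4 : Tendsto (fun n => (cc p n - P0 p n (σ n)) / kap p r + 1 -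
      P0 p n (σ n) / cc p (r + 1)) atTop
      (𝓝 ((cinf p - cinf p) / kap p r + 1 - cinf p / cc p (r + 1))) := by
    exact (((hcc.sub h0).div_const _).add_const 1).sub (h0.div_const _)
  rw [sub_self, zero_div, zero_add] at h4
  obtain ⟨n0, hn0⟩ := (h4.eventually (gt_mem_nhds hm2)).exists_forall_of_atTop
  refine ⟨max n0 (r + 1), fun n hn => ?_⟩
  obtain ⟨l, rfl⟩ : ∃ l, n = l + (r + 1) := ⟨n - (r + 1), by
    have := le_trans (le_max_right n0 (r + 1)) hn
    omega⟩
  have h5 := hn0 _ (le_trans (le_max_left _ _) hn)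
  have h6 := main_bound (p := p) hN l r (l + (r + 1)) rfl (σ (l + (r + 1))) G
  rw [Real.dist_eq]
  have h7 := abs_sub_le (PG p N (l + (r + 1)) (σ (l + (r + 1))) G)
    (avg (fun Y : Fin (r + 1) → Fin (r + 1) → ZMod (p ^ N) =>
      ind (Nonempty (Cok (ZMod (p ^ N)) Y ≃+ G)))) (clMass p G)
  linarith

end Pool.Agent.R979.CL
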