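import Pool.Agent.R979.CL.Avg

/-!
# Probability that independent uniform vectors of subspaces are linearly independent
-/

set_option autoImplicit false

namespace Pool.Agent.R979.CL

open Finset Module

variable {F : Type} [Field F] [Fintype F]
variable {E : Type} [AddCommGroup E] [Module F E] [Finite E]

/-- The product `∏_{i < r} (1 - q ^ i / q ^ d)`. -/
noncomputable def gp (q : ℝ) (r d : ℕ) : ℝ := ∏ i ∈ range r, (1 - q ^ i / q ^ d)

theorem card_sub (W : Submodule F E) :
    (Nat.card W : ℝ) = (Fintype.card F : ℝ) ^ finrank F W := by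
  have := Module.natCard_eq_pow_finrank (K := F) (V := W)
  rw [this, Nat.card_eq_fintype_card]
  push_cast
  rfl

theorem finrank_le' (W : Submodule F E) : finrank F W ≤ finrank F E := Submodule.finrank_le W

noncomputable instance (W : Submodule F E) : Fintype W := Fintype.ofFinite W

theorem one_lt_q : (1 : ℝ) < Fintype.card F := by exact_mod_cast Fintype.one_lt_card

theorem avg_mem (W S : Submodule F E) :
    (Fintype.card F : ℝ) ^ finrank F S / (Fintype.card F : ℝ) ^ finrank F E ≤
      avg (fun y : W => ind ((y : E) ∈ S)) := by
  classical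
  have hsum : (∑ y : W, ind ((y : E) ∈ S)) = Nat.card (W ⊓ S : Submodule F E) := by
    have h1 : (∑ y : W, ind ((y : E) ∈ S)) = Nat.card {y : W // (y : E) ∈ S} := by
      rw [Nat.card_eq_fintype_card, Fintype.card_subtype]
      rw [Finset.card_filter]
      push_cast
      apply Finset.sum_congr rfl
      intro y _
      by_cases h : (y : E) ∈ S
      · rw [ind_true h, if_pos h]
      · rw [ind_false h, if_neg h]
    rw [h1]
    congr 1
    apply Nat.card_congr
    exact
      { toFun := fun y => ⟨y.1.1, y.1.2, y.2⟩
        invFun := fun y => ⟨⟨y.1, y.2.1⟩, y.2.2⟩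
        left_inv := fun y => rfl
        right_inv := fun y => rfl }
  unfold avg
  rw [hsum, ← Nat.card_eq_fintype_card (α := W), card_sub, card_sub]
  have hq := one_lt_q (F := F)
  rw [div_le_div_iff₀ (by positivity) (by positivity), ← pow_add, ← pow_add]
  apply pow_le_pow_right₀ hq.le
  have h1 := Submodule.finrank_sup_add_finrank_inf_eq W S
  have h2 := finrank_le' (W ⊔ S)
  omega

theorem avg_cons (r : ℕ) (W : Fin (r + 1) → Submodule F E)
    (t : ℝ) (_ht : 0 ≤ t)
    (hstep : avg (fun Y : ∀ j : Fin r, W j.succ => ind (LinearIndependent F (fun j => (Y j : E)))) ≤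
      t) (hr : r ≤ finrank F E) :
    avg (fun Y : ∀ j : Fin (r + 1), W j => ind (LinearIndependent F (fun j => (Y j : E)))) ≤
      (1 - (Fintype.card F : ℝ) ^ r / (Fintype.card F : ℝ) ^ finrank F E) * t := by
  classical
  have hq := one_lt_q (F := F)
  set q : ℝ := (Fintype.card F : ℝ) with hqdef
  have hle : (0 : ℝ) ≤ 1 - q ^ r / q ^ finrank F E := by
    rw [sub_nonneg, div_le_one (by positivity)]
    exact pow_le_pow_right₀ hq.le hr
  rw [← avg_equiv (Fin.consEquiv (fun j => W j))
    (fun Y => ind (LinearIndependent F (fun j => (Y j : E))))]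
  rw [← avg_equiv (Equiv.prodComm _ _)]
  rw [avg_prod]
  refine le_trans ?_ (mul_le_mul_of_nonneg_left hstep hle)
  rw [← avg_const_mul]
  apply avg_mono
  intro ys
  have h1 : ∀ y0 : W 0, ind (LinearIndependent F (fun j : Fin (r + 1) =>
      (((Fin.consEquiv (fun j => W j)) (Equiv.prodComm _ _ (ys, y0)) j : W j) : E))) =
      ind (LinearIndependent F (fun j => (ys j : E))) *
        (1 - ind ((y0 : E) ∈ Submodule.span F (Set.range (fun j => (ys j : E))))) := by
    intro y0
    rw [← ind_not, ← ind_and]
    apply ind_congr
    rw [← linearIndependent_finCons]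
    have : (fun j : Fin (r + 1) =>
      (((Fin.consEquiv (fun j => W j)) (Equiv.prodComm _ _ (ys, y0)) j : W j) : E)) =
      (Fin.cons (y0 : E) (fun j => (ys j : E)) : Fin (r + 1) → E) := by
      funext j
      refine Fin.cases ?_ (fun i => ?_) j
      · simp [Fin.consEquiv]
      · simp [Fin.consEquiv]
    rw [this]
  simp only [h1]
  rw [avg_const_mul, mul_comm]
  by_cases hli : LinearIndependent F (fun j => (ys j : E))
  · rw [ind_true hli, mul_one, mul_one, avg_sub, avg_const]
    have h2 := avg_mem (W 0) (Submodule.span F (Set.range (fun j => (ys j : E))))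
    rw [finrank_span_eq_card hli, Fintype.card_fin] at h2
    linarith
  · rw [ind_false hli, mul_zero, mul_zero]

theorem li_bound (r : ℕ) (W : Fin r → Submodule F E) (hr : r ≤ finrank F E) :
    avg (fun Y : ∀ j : Fin r, W j => ind (LinearIndependent F (fun j => (Y j : E)))) ≤
      gp (Fintype.card F) r (finrank F E) := by
  induction r with
  | zero =>
    unfold gp
    simp only [Finset.range_zero, Finset.prod_empty]
    refine (avg_mono (fun a => ind_le_one _)).trans ?_
    rw [avg_const]
  | succ r ih =>
    have h0 : 0 ≤ gp (Fintype.card F) r (finrank F E) := by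
      unfold gp
      apply Finset.prod_nonneg
      intro i hi
      have hi' := Finset.mem_range.mp hi
      have hq := one_lt_q (F := F)
      rw [sub_nonneg, div_le_one (by positivity)]
      exact pow_le_pow_right₀ hq.le (by omega)
    have := avg_cons r W _ h0 (ih (fun j => W j.succ) (by omega)) (by omega)
    unfold gp at this ⊢
    rw [Finset.prod_range_succ, mul_comm]
    exact this

theorem li_bound_last (r : ℕ) (W : Fin (r + 1) → Submodule F E) (hr : r + 1 ≤ finrank F E)
    (hW : W (Fin.last r) ≠ ⊤) :
    avg (fun Y : ∀ j : Fin (r + 1), W j => ind (LinearIndependent F (fun j => (Y j : E)))) ≤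
      (1 - (Fintype.card F : ℝ) / (Fintype.card F : ℝ) ^ finrank F E) *
        ∏ i ∈ range r, (1 - (Fintype.card F : ℝ) ^ (i + 1) / (Fintype.card F : ℝ) ^ finrank F E) := by
  classical
  have hq := one_lt_q (F := F)
  induction r with
  | zero =>
    simp only [Finset.range_zero, Finset.prod_empty, mul_one]
    rw [← avg_equiv (Equiv.piUnique (fun j : Fin 1 => W j)).symm
      (fun Y : ∀ j : Fin 1, W j => ind (LinearIndependent F (fun j => (Y j : E))))]
    have h1 : ∀ y : W default, ind (LinearIndependent F (fun j : Fin 1 =>
        (((Equiv.piUnique (fun j : Fin 1 => W j)).symm y j : W j) : E))) = 1 - ind (y = 0) := by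
      intro y
      rw [← ind_not]
      apply ind_congr
      rw [linearIndependent_unique_iff]
      have h3 : ((Equiv.piUnique (fun j : Fin 1 => W j)).symm y default : W default) = y :=
        (Equiv.piUnique (fun j : Fin 1 => W j)).apply_symm_apply y
      rw [h3]
      simp
    simp only [h1]
    have hW' : W default ≠ ⊤ := hW
    have hlt : finrank F (W default) < finrank F E := Submodule.finrank_lt hW'
    rw [avg_sub, avg_const]
    have h2 : avg (fun y : W default => ind (y = 0)) =
        1 / (Fintype.card F : ℝ) ^ finrank F (W default) := by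
      unfold avg
      rw [← Nat.card_eq_fintype_card (α := W default), card_sub]
      congr 1
      rw [Finset.sum_eq_single 0]
      · exact ind_true rfl
      · intro b _ hb
        exact ind_false hb
      · intro h
        exact absurd (Finset.mem_univ _) h
    rw [h2]
    apply sub_le_sub_left
    rw [div_le_div_iff₀ (by positivity) (by positivity), one_mul]
    calc (Fintype.card F : ℝ) * (Fintype.card F : ℝ) ^ finrank F (W default)
        = (Fintype.card F : ℝ) ^ (finrank F (W default) + 1) := by ring
      _ ≤ _ := pow_le_pow_right₀ hq.le (by omega)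
  | succ r ih =>
    have h0 : 0 ≤ (1 - (Fintype.card F : ℝ) / (Fintype.card F : ℝ) ^ finrank F E) *
        ∏ i ∈ range r, (1 - (Fintype.card F : ℝ) ^ (i + 1) / (Fintype.card F : ℝ) ^ finrank F E) := by
      apply mul_nonneg
      · rw [sub_nonneg, div_le_one (by positivity)]
        calc (Fintype.card F : ℝ) = (Fintype.card F : ℝ) ^ 1 := (pow_one _).symm
          _ ≤ _ := pow_le_pow_right₀ hq.le (by omega)
      · apply Finset.prod_nonneg
        intro i hi
        have hi' := Finset.mem_range.mp hi
        rw [sub_nonneg, div_le_one (by positivity)]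
        exact pow_le_pow_right₀ hq.le (by omega)
    have := avg_cons (r + 1) W _ h0 (ih (fun j => W j.succ) (by omega) (by
      rw [Fin.succ_last]; exact hW)) (by omega)
    rw [Finset.prod_range_succ]
    refine this.trans (le_of_eq ?_)
    ring

end Pool.Agent.R979.CL
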