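import Pool.Agent.R979.CL.Lim

/-!
# The law of the random `p`-adic matrix and its reductions
-/

set_option autoImplicit false

namespace Pool.Agent.R979.CL

open Finset Module Filter Topology MeasureTheory

variable {p : ℕ} [hp : Fact p.Prime]

/-- The Borel sigma-algebra of the `p`-adic integers. -/
noncomputable instance instMeasPadic : MeasurableSpace ℤ_[p] := borel _

instance instBorelPadic : BorelSpace ℤ_[p] := ⟨rfl⟩

/-- The Haar probability measure on the `p`-adic integers. -/
noncomputable def haarZp (p : ℕ) [Fact p.Prime] : Measure ℤ_[p] :=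
  Measure.addHaarMeasure (⊤ : TopologicalSpace.PositiveCompacts ℤ_[p])

instance : IsProbabilityMeasure (haarZp p) := by
  constructor
  have := Measure.addHaarMeasure_self (K₀ := (⊤ : TopologicalSpace.PositiveCompacts ℤ_[p]))
  simpa [haarZp] using this

instance : (haarZp p).IsAddLeftInvariant := by
  unfold haarZp; infer_instance

open Classical in
/-- The law of the random matrix: independent entries, Haar distributed on the support and zero
outside. -/
noncomputable def matLaw (p n : ℕ) [Fact p.Prime] (σ : Fin n → Set (Fin n)) :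
    Measure (Fin n → Fin n → ℤ_[p]) :=
  Measure.pi fun i => Measure.pi fun j => if i ∈ σ j then haarZp p else Measure.dirac 0

section
variable {R : Type} [CommRing R] [Fintype R] [Nontrivial R] (φ : ℤ_[p] →+* R)
  (hφ : Function.Surjective φ) (hm : MeasurableSet {x : ℤ_[p] | φ x = 0})

include hφ hm

theorem meas_fib (a : R) : MeasurableSet {x : ℤ_[p] | φ x = a} ∧
    haarZp p {x : ℤ_[p] | φ x = a} = haarZp p {x : ℤ_[p] | φ x = 0} := by
  obtain ⟨y, rfl⟩ := hφ a
  have h1 : {x : ℤ_[p] | φ x = φ y} = (fun x => -y + x) ⁻¹' {x : ℤ_[p] | φ x = 0} := by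
    ext x
    simp only [Set.mem_ofPred_eq, Set.mem_preimage, map_add, map_neg]
    constructor
    · intro h; rw [h]; ring
    · intro h
      have : φ x = φ y + (-φ y + φ x) := by ring
      rw [this, h, add_zero]
  rw [h1]
  refine ⟨(measurable_const_add (-y)) hm, ?_⟩
  exact measure_preimage_add (haarZp p) (-y) _

theorem haar_fib (a : R) :
    (haarZp p).real {x : ℤ_[p] | φ x = a} = 1 / (Fintype.card R : ℝ) := by
  classical
  have h1 : ∑ b ∈ (Finset.univ : Finset R), haarZp p (φ ⁻¹' {b}) = haarZp p (φ ⁻¹' ↑(Finset.univ : Finset R)) := by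
    apply sum_measure_preimage_singleton
    intro y _
    exact (meas_fib φ hφ hm y).1
  have h2 : ∀ b : R, haarZp p (φ ⁻¹' {b}) = haarZp p {x : ℤ_[p] | φ x = 0} := by
    intro b
    exact (meas_fib φ hφ hm b).2
  rw [Finset.sum_congr rfl (fun b _ => h2 b)] at h1
  simp only [Finset.sum_const, Finset.card_univ, Finset.coe_univ, Set.preimage_univ,
    measure_univ, nsmul_eq_mul] at h1
  have h3 : (Fintype.card R : ℝ) * (haarZp p).real {x : ℤ_[p] | φ x = 0} = 1 := by
    have := congrArg ENNReal.toReal h1
    rw [ENNReal.toReal_mul] at this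
    simpa [Measure.real] using this
  have h4 : (haarZp p).real {x : ℤ_[p] | φ x = a} = (haarZp p).real {x : ℤ_[p] | φ x = 0} := by
    unfold Measure.real
    rw [(meas_fib φ hφ hm a).2]
  have h5 : (Fintype.card R : ℝ) ≠ 0 := by exact_mod_cast Fintype.card_ne_zero
  rw [h4, eq_div_iff h5]
  linarith

open Classical in
/-- The weight of one entry. -/
noncomputable def wt (R : Type) [CommRing R] [Fintype R] {n : ℕ} (s : Set (Fin n)) (i : Fin n)
    (a : R) : ℝ := if i ∈ s then 1 / (Fintype.card R : ℝ) else ind (a = 0)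

omit hφ hm in
theorem sum_wt {n : ℕ} (s : Set (Fin n)) (i : Fin n) : (∑ a : R, wt R s i a) = 1 := by
  classical
  have h5 : (Fintype.card R : ℝ) ≠ 0 := by exact_mod_cast Fintype.card_ne_zero
  by_cases hi : i ∈ s
  · simp only [wt, hi, if_true, Finset.sum_const, Finset.card_univ, nsmul_eq_mul]
    field_simp
  · simp only [wt, hi, if_false]
    rw [sum_ind]
    norm_num

omit hφ hm [Nontrivial R] in
theorem prod_wt {n : ℕ} (s : Set (Fin n)) (v : Fin n → R) :
    (∏ i, wt R s i (v i)) = ind (v ∈ colSub R n s) / Nat.card (colSub R n s) := by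
  classical
  have h5 : (Fintype.card R : ℝ) ≠ 0 := by exact_mod_cast Fintype.card_ne_zero
  obtain ⟨c, hc⟩ : ∃ c : ℝ, c = ∏ i : Fin n, (if i ∈ s then 1 / (Fintype.card R : ℝ) else 1) :=
    ⟨_, rfl⟩
  have h1 : ∀ v : Fin n → R, (∏ i, wt R s i (v i)) = ind (v ∈ colSub R n s) * c := by
    intro v
    by_cases hv : v ∈ colSub R n s
    · rw [ind_true hv, one_mul, hc]
      apply Finset.prod_congr rfl
      intro i _
      by_cases hi : i ∈ s
      · simp [wt, hi]
      · simp only [wt, hi, if_false]
        exact ind_true (hv i hi)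
    · rw [ind_false hv, zero_mul]
      have : ∃ i, i ∉ s ∧ v i ≠ 0 := by
        by_contra h
        push Not at h
        exact hv h
      obtain ⟨i, hi, hvi⟩ := this
      apply Finset.prod_eq_zero (Finset.mem_univ i)
      simp only [wt, hi, if_false]
      exact ind_false hvi
  have h2 : (∑ v : Fin n → R, ∏ i, wt R s i (v i)) = 1 := by
    rw [← Fintype.piFinset_univ, ← Finset.prod_univ_sum]
    rcases subsingleton_or_nontrivial R with hR | hR
    · apply Finset.prod_eq_one
      intro i _
      have hu : (Finset.univ : Finset R) = {0} := by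
        ext a; simp [Subsingleton.elim a 0]
      have hcard : (Fintype.card R : ℝ) = 1 := by
        rw [← Finset.card_univ, hu]; simp
      rw [hu, Finset.sum_singleton]
      by_cases hi : i ∈ s
      · simp [wt, hi, hcard]
      · simp [wt, hi, ind]
    · apply Finset.prod_eq_one
      intro i _
      exact sum_wt s i
  simp only [h1] at h2
  rw [← Finset.sum_mul, sum_ind] at h2
  rw [h1 v]
  have h3 : (Nat.card {a // a ∈ colSub R n s} : ℝ) * c = 1 := h2
  have h4 : (Nat.card (colSub R n s) : ℝ) ≠ 0 := by
    intro h0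
    have : (Nat.card {a // a ∈ colSub R n s} : ℝ) = 0 := h0
    rw [this, zero_mul] at h3
    exact zero_ne_one h3
  rw [eq_div_iff h4]
  have h6 : c * (Nat.card (colSub R n s) : ℝ) = 1 := by
    rw [mul_comm]; exact h3
  rw [mul_assoc, h6, mul_one]

omit hφ hm [Nontrivial R] in
theorem avg_cols {n : ℕ} (σ : Fin n → Set (Fin n)) (f : (Fin n → Fin n → R) → ℝ) :
    avg (fun Z : ∀ j, colSub R n (σ j) => f (fun j => (Z j : Fin n → R))) =
      ∑ M : Fin n → Fin n → R, (∏ j, ∏ i, wt R (σ j) i (M j i)) * f M := by
  classical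
  have h1 : ∀ M : Fin n → Fin n → R, (∏ j, ∏ i, wt R (σ j) i (M j i)) * f M =
      (if (∀ j, M j ∈ colSub R n (σ j)) then f M else 0) /
        (∏ j, (Nat.card (colSub R n (σ j)) : ℝ)) := by
    intro M
    simp only [prod_wt]
    rw [Finset.prod_div_distrib]
    by_cases h : ∀ j, M j ∈ colSub R n (σ j)
    · rw [if_pos h]
      have : (∏ j, ind (M j ∈ colSub R n (σ j))) = 1 :=
        Finset.prod_eq_one fun j _ => ind_true (h j)
      rw [this]; ring
    · rw [if_neg h]
      push Not at h
      obtain ⟨j, hj⟩ := h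
      have : (∏ j, ind (M j ∈ colSub R n (σ j))) = 0 :=
        Finset.prod_eq_zero (Finset.mem_univ j) (ind_false hj)
      rw [this]; ring
  simp only [h1]
  rw [← Finset.sum_div]
  unfold avg
  congr 1
  · rw [← Finset.sum_filter]
    rw [← Finset.sum_subtype_eq_sum_filter]
    simp only [Finset.subtype_univ]
    exact (Equiv.sum_comp (Equiv.subtypePiEquivPi
      (p := fun (j : Fin n) (v : Fin n → R) => v ∈ colSub R n (σ j))).symm
      (fun M => f M.1)).trans rfl
  · rw [Fintype.card_pi]
    push_cast
    apply Finset.prod_congr rfl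
    intro j _
    rw [Nat.card_eq_fintype_card]

theorem law_fib {n : ℕ} (σ : Fin n → Set (Fin n)) (M : Fin n → Fin n → R) :
    MeasurableSet {X : Fin n → Fin n → ℤ_[p] | ∀ i j, φ (X i j) = M j i} ∧
    (matLaw p n σ).real {X | ∀ i j, φ (X i j) = M j i} = ∏ j, ∏ i, wt R (σ j) i (M j i) := by
  classical
  have hset : {X : Fin n → Fin n → ℤ_[p] | ∀ i j, φ (X i j) = M j i} =
      Set.pi Set.univ (fun i => Set.pi Set.univ (fun j => {x | φ x = M j i})) := by
    ext X
    simp
  haveI hprob : ∀ i j, IsProbabilityMeasure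
      (if i ∈ σ j then haarZp p else Measure.dirac (0 : ℤ_[p])) := by
    intro i j
    split_ifs <;> infer_instance
  rw [hset]
  constructor
  · apply MeasurableSet.univ_pi
    intro i
    apply MeasurableSet.univ_pi
    intro j
    exact (meas_fib φ hφ hm _).1
  · unfold Measure.real matLaw
    rw [Measure.pi_pi, ENNReal.toReal_prod]
    simp only [Measure.pi_pi, ENNReal.toReal_prod]
    rw [Finset.prod_comm]
    apply Finset.prod_congr rfl
    intro j _
    apply Finset.prod_congr rfl
    intro i _
    by_cases hi : i ∈ σ j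
    · simp only [hi, if_true, wt]
      exact haar_fib φ hφ hm _
    · simp only [hi, if_false, wt]
      by_cases h0 : M j i = 0
      · rw [ind_true h0, h0, Measure.dirac_apply' _ hm]
        simp
      · rw [ind_false h0, Measure.dirac_apply' _ (meas_fib φ hφ hm _).1]
        have : (0 : ℤ_[p]) ∉ {x | φ x = M j i} := by
          intro h
          apply h0
          have h' : φ 0 = M j i := h
          rw [← h', map_zero]
        simp [this]

theorem law_transfer {n : ℕ} (σ : Fin n → Set (Fin n)) (E : (Fin n → Fin n → R) → Prop) :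
    (matLaw p n σ).real {X | E (fun j i => φ (X i j))} =
      avg (fun Z : ∀ j, colSub R n (σ j) => ind (E (fun j => (Z j : Fin n → R)))) := by
  classical
  haveI hprob : ∀ i j, IsProbabilityMeasure
      (if i ∈ σ j then haarZp p else Measure.dirac (0 : ℤ_[p])) := by
    intro i j
    split_ifs <;> infer_instance
  haveI : IsProbabilityMeasure (matLaw p n σ) := by
    unfold matLaw; infer_instance
  rw [avg_cols σ (fun M => ind (E M))]
  let Φ : (Fin n → Fin n → ℤ_[p]) → (Fin n → Fin n → R) := fun X j i => φ (X i j)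
  have hpre : ∀ M, Φ ⁻¹' {M} = {X : Fin n → Fin n → ℤ_[p] | ∀ i j, φ (X i j) = M j i} := by
    intro M
    ext X
    simp only [Φ, Set.mem_preimage, Set.mem_singleton_iff, Set.mem_ofPred_eq]
    constructor
    · rintro rfl i j; rfl
    · intro h
      funext j i
      exact h i j
  have h1 := sum_measure_preimage_singleton (μ := matLaw p n σ)
    (Finset.univ.filter E) (f := Φ) (by
      intro M _
      rw [hpre]
      exact (law_fib φ hφ hm σ M).1)
  have h2 : (Φ ⁻¹' ↑(Finset.univ.filter E) : Set (Fin n → Fin n → ℤ_[p])) =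
      {X | E (fun j i => φ (X i j))} := by
    ext X
    simp [Φ]
  rw [h2] at h1
  unfold Measure.real
  rw [← h1, ENNReal.toReal_sum (fun M _ => measure_ne_top _ _)]
  rw [Finset.sum_filter]
  apply Finset.sum_congr rfl
  intro M _
  by_cases hM : E M
  · rw [if_pos hM, ind_true hM, mul_one, hpre]
    exact (law_fib φ hφ hm σ M).2
  · rw [if_neg hM, ind_false hM, mul_zero]

end

end Pool.Agent.R979.CL
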