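import Pool.Agent.R979.CL.FLevel

/-!
# Reduction of the cokernel to a square matrix of bounded size
-/

set_option autoImplicit false

namespace Pool.Agent.R979.CL

open Finset Module

/-- The vectors supported on a set. -/
def colSub (R : Type) [CommRing R] (n : ℕ) (s : Set (Fin n)) : Submodule R (Fin n → R) where
  carrier := {v | ∀ i, i ∉ s → v i = 0}
  add_mem' := by
    intro a b ha hb i hi
    simp [ha i hi, hb i hi]
  zero_mem' := by intro i _; rfl
  smul_mem' := by
    intro c x hx i hi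
    simp [hx i hi]

section
variable {p N : ℕ} [hp : Fact p.Prime]

instance instNeZeroPow : NeZero (p ^ N) := ⟨pow_ne_zero _ hp.out.ne_zero⟩

/-- Reduction modulo `p`. -/
def red (p N : ℕ) (hN : N ≠ 0) : ZMod (p ^ N) →+* ZMod p :=
  ZMod.castHom (dvd_pow_self p hN) (ZMod p)

theorem red_surj (hN : N ≠ 0) : Function.Surjective (red p N hN) := by
  intro x
  refine ⟨(x.val : ZMod (p ^ N)), ?_⟩
  rw [map_natCast, ZMod.natCast_val, ZMod.cast_id]

theorem red_eq_zero (hN : N ≠ 0) (x : ZMod (p ^ N)) (hx : red p N hN x = 0) :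
    ∃ y, x = (p : ZMod (p ^ N)) * y := by
  have h1 : x = ((x.val : ℕ) : ZMod (p ^ N)) := by
    rw [ZMod.natCast_val, ZMod.cast_id]
  rw [h1, map_natCast, ZMod.natCast_eq_zero_iff] at hx
  obtain ⟨k, hk⟩ := hx
  refine ⟨(k : ZMod (p ^ N)), ?_⟩
  rw [h1, hk]
  push_cast
  rfl

theorem p_mem_jac : Ideal.span {(p : ZMod (p ^ N))} ≤ (⊥ : Ideal (ZMod (p ^ N))).jacobson := by
  rw [Ideal.span_singleton_le_iff_mem]
  have h : IsNilpotent (p : ZMod (p ^ N)) := ⟨N, by
    have := ZMod.natCast_self (p ^ N)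
    push_cast at this
    exact this⟩
  exact Ideal.radical_le_jacobson (mem_nilradical.mpr h)

/-- Nakayama's lemma. -/
theorem nak {M : Type} [AddCommGroup M] [Module (ZMod (p ^ N)) M] [Finite M]
    (S K : Submodule (ZMod (p ^ N)) M)
    (h : ∀ x ∈ K, ∃ s ∈ S, ∃ y ∈ K, x = s + (p : ZMod (p ^ N)) • y) : K ≤ S := by
  apply Submodule.le_of_le_smul_of_le_jacobson_bot (I := Ideal.span {(p : ZMod (p ^ N))})
  · exact IsNoetherian.noetherian K
  · exact p_mem_jac
  · intro x hx
    obtain ⟨s, hs, y, hy, rfl⟩ := h x hx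
    apply Submodule.add_mem_sup hs
    exact Submodule.smul_mem_smul (Ideal.mem_span_singleton_self _) hy

theorem top_of_red {n : ℕ} (hN : N ≠ 0) (S : Submodule (ZMod (p ^ N)) (Fin n → ZMod (p ^ N)))
    (h : ∀ w : Fin n → ZMod p, ∃ s ∈ S, ∀ i, red p N hN (s i) = w i) : S = ⊤ := by
  rw [eq_top_iff]
  apply nak
  intro x _
  obtain ⟨s, hs, hs'⟩ := h (fun i => red p N hN (x i))
  have : ∀ i, ∃ y, x i - s i = (p : ZMod (p ^ N)) * y := by
    intro i
    apply red_eq_zero hN
    rw [map_sub, hs' i, sub_self]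
  choose y hy using this
  refine ⟨s, hs, y, trivial, ?_⟩
  funext i
  simp only [Pi.add_apply, Pi.smul_apply, smul_eq_mul, ← hy i]
  ring

theorem lift_span {n : ℕ} {ι : Type} (hN : N ≠ 0) (v : ι → Fin n → ZMod (p ^ N))
    (w : Fin n → ZMod p)
    (hw : w ∈ Submodule.span (ZMod p) (Set.range (fun j i => red p N hN (v j i)))) :
    ∃ s ∈ Submodule.span (ZMod (p ^ N)) (Set.range v), ∀ i, red p N hN (s i) = w i := by
  induction hw using Submodule.span_induction with
  | mem x hx =>
    obtain ⟨j, rfl⟩ := hx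
    exact ⟨v j, Submodule.subset_span ⟨j, rfl⟩, fun i => rfl⟩
  | zero => exact ⟨0, Submodule.zero_mem _, fun i => by simp⟩
  | add x y _ _ hx hy =>
    obtain ⟨s, hs, hs'⟩ := hx
    obtain ⟨t, ht, ht'⟩ := hy
    exact ⟨s + t, Submodule.add_mem _ hs ht, fun i => by simp [hs' i, ht' i]⟩
  | smul a x _ hx =>
    obtain ⟨s, hs, hs'⟩ := hx
    obtain ⟨a', ha'⟩ := red_surj (p := p) hN a
    exact ⟨a' • s, Submodule.smul_mem _ _ hs, fun i => by simp [hs' i, ha']⟩

theorem lift_colSub {n : ℕ} (hN : N ≠ 0) (T : Set (Fin n)) (w : Fin n → ZMod p)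
    (hw : w ∈ colSub (ZMod p) n T) :
    ∃ s ∈ colSub (ZMod (p ^ N)) n T, ∀ i, red p N hN (s i) = w i := by
  classical
  choose f hf using red_surj (p := p) (N := N) hN
  refine ⟨fun i => if i ∈ T then f (w i) else 0, ?_, ?_⟩
  · intro i hi
    simp [hi]
  · intro i
    by_cases hi : i ∈ T
    · simp [hi, hf]
    · have := hw i hi
      simp [hi, this]

/-- The projection along the columns of `A`. -/
theorem exists_proj {n l m : ℕ} (hN : N ≠ 0) (hn : n = l + m) (A : Fin l → Fin n → ZMod (p ^ N))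
    (hA : LinearIndependent (ZMod p) (fun j i => red p N hN (A j i))) :
    ∃ π : (Fin n → ZMod (p ^ N)) →ₗ[ZMod (p ^ N)] (Fin m → ZMod (p ^ N)),
      Function.Surjective π ∧ LinearMap.ker π = Submodule.span (ZMod (p ^ N)) (Set.range A) := by
  classical
  set Ab : Fin l → Fin n → ZMod p := fun j i => red p N hN (A j i) with hAb
  obtain ⟨V', hV'⟩ := Submodule.exists_isCompl (Submodule.span (ZMod p) (Set.range Ab))
  have hVd : finrank (ZMod p) (Submodule.span (ZMod p) (Set.range Ab)) = l := by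
    rw [finrank_span_eq_card hA, Fintype.card_fin]
  have hV'd : finrank (ZMod p) V' = m := by
    have := Submodule.finrank_add_eq_of_isCompl hV'
    rw [hVd, finrank_fin_fun] at this
    omega
  let Cb := Module.finBasisOfFinrankEq (ZMod p) V' hV'd
  choose f hf using red_surj (p := p) (N := N) hN
  let C : Fin m → Fin n → ZMod (p ^ N) := fun j i => f ((Cb j : Fin n → ZMod p) i)
  have hC : (fun j i => red p N hN (C j i)) = fun j => ((Cb j : V') : Fin n → ZMod p) := by
    funext j i
    exact hf _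
  have hCspan : Submodule.span (ZMod p) (Set.range (fun j => ((Cb j : V') : Fin n → ZMod p)))
      = V' := by
    have h1 : Set.range (fun j => ((Cb j : V') : Fin n → ZMod p)) =
        V'.subtype '' (Set.range Cb) := by
      rw [← Set.range_comp]
      rfl
    rw [h1, Submodule.span_image, Cb.span_eq, Submodule.map_top, Submodule.range_subtype]
  have htop : Submodule.span (ZMod (p ^ N)) (Set.range (Sum.elim A C)) = ⊤ := by
    apply top_of_red hN
    intro w
    have hw : w ∈ Submodule.span (ZMod p) (Set.range Ab) ⊔ V' := by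
      rw [hV'.sup_eq_top]; trivial
    obtain ⟨w1, hw1, w2, hw2, rfl⟩ := Submodule.mem_sup.mp hw
    obtain ⟨s1, hs1, hs1'⟩ := lift_span hN A w1 hw1
    obtain ⟨s2, hs2, hs2'⟩ := lift_span hN C w2 (by rw [hC, hCspan]; exact hw2)
    refine ⟨s1 + s2, ?_, fun i => by simp [hs1' i, hs2' i]⟩
    rw [Set.Sum.elim_range, Submodule.span_union]
    exact Submodule.add_mem_sup hs1 hs2
  let Φ : (Fin l ⊕ Fin m → ZMod (p ^ N)) →ₗ[ZMod (p ^ N)] (Fin n → ZMod (p ^ N)) :=
    Fintype.linearCombination (ZMod (p ^ N)) (Sum.elim A C)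
  have hΦs : Function.Surjective Φ := by
    rw [← LinearMap.range_eq_top, Fintype.range_linearCombination]
    exact htop
  have hΦb : Function.Bijective Φ := by
    rw [Fintype.bijective_iff_surjective_and_card]
    refine ⟨hΦs, ?_⟩
    simp only [Fintype.card_pi, Finset.prod_const, Finset.card_univ, Fintype.card_sum,
      Fintype.card_fin, hn]
  let e := LinearEquiv.ofBijective Φ hΦb
  let pr : (Fin l ⊕ Fin m → ZMod (p ^ N)) →ₗ[ZMod (p ^ N)] (Fin m → ZMod (p ^ N)) :=
    LinearMap.funLeft (ZMod (p ^ N)) (ZMod (p ^ N)) Sum.inr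
  refine ⟨pr ∘ₗ e.symm.toLinearMap, ?_, ?_⟩
  · intro y
    refine ⟨e (Sum.elim 0 y), ?_⟩
    simp only [LinearMap.coe_comp, LinearEquiv.coe_coe, Function.comp_apply,
      LinearEquiv.symm_apply_apply]
    funext j
    simp [pr, LinearMap.funLeft_apply]
  · apply le_antisymm
    · intro v hv
      have hv' : ∀ j : Fin m, (e.symm v) (Sum.inr j) = 0 := by
        intro j
        have := congrFun (LinearMap.mem_ker.mp hv) j
        simpa [pr, LinearMap.funLeft_apply] using this
      have h1 : v = Φ (e.symm v) := (e.apply_symm_apply v).symm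
      rw [h1]
      simp only [Φ, Fintype.linearCombination_apply, Fintype.sum_sum_type, Sum.elim_inl,
        Sum.elim_inr, hv', zero_smul, Finset.sum_const_zero, add_zero]
      apply Submodule.sum_mem
      intro j _
      exact Submodule.smul_mem _ _ (Submodule.subset_span ⟨j, rfl⟩)
    · rw [Submodule.span_le]
      rintro _ ⟨j, rfl⟩
      have h1 : e (Pi.single (Sum.inl j) 1) = A j := by
        show Φ (Pi.single (Sum.inl j) 1) = A j
        simp only [Φ, Fintype.linearCombination_apply]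
        rw [Finset.sum_eq_single (Sum.inl j)]
        · simp
        · intro b _ hb
          simp [Pi.single_eq_of_ne hb]
        · intro h
          exact absurd (Finset.mem_univ _) h
      have h2 : e.symm (A j) = Pi.single (Sum.inl j) 1 := by
        rw [← h1, e.symm_apply_apply]
      simp only [SetLike.mem_coe, LinearMap.mem_ker, LinearMap.coe_comp, LinearEquiv.coe_coe,
        Function.comp_apply, h2]
      funext k
      simp [pr, LinearMap.funLeft_apply]

/-- The cokernel of a submodule of `R ^ n`. -/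
abbrev Cok (R : Type) [CommRing R] {n : ℕ} {ι : Type} (X : ι → Fin n → R) : Type :=
  (Fin n → R) ⧸ Submodule.span R (Set.range X)

theorem cok_proj {n m : ℕ} {ι κ : Type} (A : ι → Fin n → ZMod (p ^ N))
    (B : κ → Fin n → ZMod (p ^ N))
    (π : (Fin n → ZMod (p ^ N)) →ₗ[ZMod (p ^ N)] (Fin m → ZMod (p ^ N)))
    (hπ : Function.Surjective π)
    (hker : LinearMap.ker π = Submodule.span (ZMod (p ^ N)) (Set.range A)) :
    Nonempty (Cok (ZMod (p ^ N)) (Sum.elim A B) ≃+ Cok (ZMod (p ^ N)) (fun j => π (B j))) := by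
  let f : (Fin n → ZMod (p ^ N)) →ₗ[ZMod (p ^ N)] Cok (ZMod (p ^ N)) (fun j => π (B j)) :=
    (Submodule.mkQ _) ∘ₗ π
  have hf : Function.Surjective f := (Submodule.mkQ_surjective _).comp hπ
  have hkf : LinearMap.ker f = Submodule.span (ZMod (p ^ N)) (Set.range (Sum.elim A B)) := by
    rw [LinearMap.ker_comp, Submodule.ker_mkQ]
    have h1 : Set.range (fun j => π (B j)) = π '' (Set.range B) := by
      rw [← Set.range_comp]; rfl
    rw [h1, Submodule.span_image, Submodule.comap_map_eq, hker, Set.Sum.elim_range,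
      Submodule.span_union, sup_comm]
  exact ⟨((Submodule.quotEquivOfEq _ _ hkf.symm).trans
    (LinearMap.quotKerEquivOfSurjective f hf)).toAddEquiv⟩

theorem good_avg {n l m : ℕ} (hN : N ≠ 0) (hn : n = l + m) (A : Fin l → Fin n → ZMod (p ^ N))
    (hA : LinearIndependent (ZMod p) (fun j i => red p N hN (A j i)))
    (T : Fin m → Set (Fin n))
    (hT : ∀ j, Submodule.span (ZMod p) (Set.range (fun j i => red p N hN (A j i))) ⊔
      colSub (ZMod p) n (T j) = ⊤)
    (G : Type) [AddCommGroup G] :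
    avg (fun B : ∀ j, colSub (ZMod (p ^ N)) n (T j) =>
      ind (Nonempty (Cok (ZMod (p ^ N)) (Sum.elim A (fun j => (B j : Fin n → ZMod (p ^ N)))) ≃+ G)))
    = avg (fun Y : Fin m → Fin m → ZMod (p ^ N) =>
      ind (Nonempty (Cok (ZMod (p ^ N)) Y ≃+ G))) := by
  classical
  obtain ⟨π, hπ, hker⟩ := exists_proj hN hn A hA
  have hmap : ∀ j, (colSub (ZMod (p ^ N)) n (T j)).map π = ⊤ := by
    intro j
    have h1 : Submodule.span (ZMod (p ^ N)) (Set.range A) ⊔ colSub (ZMod (p ^ N)) n (T j) = ⊤ := by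
      apply top_of_red hN
      intro w
      have hw : w ∈ Submodule.span (ZMod p) (Set.range (fun j i => red p N hN (A j i))) ⊔
        colSub (ZMod p) n (T j) := by rw [hT j]; trivial
      obtain ⟨w1, hw1, w2, hw2, rfl⟩ := Submodule.mem_sup.mp hw
      obtain ⟨s1, hs1, hs1'⟩ := lift_span hN A w1 hw1
      obtain ⟨s2, hs2, hs2'⟩ := lift_colSub hN (T j) w2 hw2
      exact ⟨s1 + s2, Submodule.add_mem_sup hs1 hs2, fun i => by simp [hs1' i, hs2' i]⟩
    have h2 := congrArg (Submodule.map π) h1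
    rw [Submodule.map_sup, ← hker, Submodule.map_top, LinearMap.range_eq_top.mpr hπ] at h2
    have h3 : Submodule.map π (LinearMap.ker π) = ⊥ := by
      rw [eq_bot_iff]
      rintro _ ⟨x, hx, rfl⟩
      exact hx
    rwa [h3, bot_sup_eq] at h2
  let ψ : (∀ j, colSub (ZMod (p ^ N)) n (T j)) →+ (Fin m → Fin m → ZMod (p ^ N)) :=
    { toFun := fun B j => π (B j)
      map_zero' := by
        funext j
        simp
      map_add' := by
        intro x y
        funext j
        simp }
  have hψ : Function.Surjective ψ := by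
    intro Y
    have : ∀ j, ∃ b ∈ colSub (ZMod (p ^ N)) n (T j), π b = Y j := by
      intro j
      have : Y j ∈ (colSub (ZMod (p ^ N)) n (T j)).map π := by rw [hmap j]; trivial
      exact Submodule.mem_map.mp this
    choose b hb hb' using this
    refine ⟨fun j => ⟨b j, hb j⟩, ?_⟩
    funext j
    exact hb' j
  rw [← avg_hom ψ hψ]
  congr 1
  funext B
  apply ind_congr
  obtain ⟨e⟩ := cok_proj A (fun j => (B j : Fin n → ZMod (p ^ N))) π hπ hker
  constructor
  · rintro ⟨g⟩
    exact ⟨e.symm.trans g⟩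
  · rintro ⟨g⟩
    exact ⟨e.trans g⟩

end

end Pool.Agent.R979.CL
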