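import Pool.Agent.R979.CL.Meas

/-!
# Cokernels over the `p`-adic integers
-/

set_option autoImplicit false

namespace Pool.Agent.R979.CL

open Finset Module Filter Topology MeasureTheory

variable {p : ℕ} [hp : Fact p.Prime]

/-- The cokernel of a square `p`-adic matrix. -/
abbrev coker {n : ℕ} (X : Fin n → Fin n → ℤ_[p]) : Type :=
  (Fin n → ℤ_[p]) ⧸ LinearMap.range (Matrix.of X).mulVecLin

/-- coordinatewise reduction -/
noncomputable def rho (p N n : ℕ) [Fact p.Prime] :
    (Fin n → ℤ_[p]) →ₛₗ[PadicInt.toZModPow (p := p) N] (Fin n → ZMod (p ^ N)) where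
  toFun v i := PadicInt.toZModPow N (v i)
  map_add' := by intro x y; funext i; simp
  map_smul' := by intro c x; funext i; simp

theorem toZModPow_surj (N : ℕ) : Function.Surjective (PadicInt.toZModPow (p := p) N) :=
  ZMod.ringHom_surjective _

theorem toZMod_surj : Function.Surjective (PadicInt.toZMod (p := p)) :=
  ZMod.ringHom_surjective _

theorem rho_surj (N n : ℕ) : Function.Surjective (rho p N n) := by
  intro w
  choose f hf using toZModPow_surj (p := p) N
  exact ⟨fun i => f (w i), funext fun i => hf _⟩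

theorem mem_ker_rho (N n : ℕ) (v : Fin n → ℤ_[p]) (hv : rho p N n v = 0) :
    ∃ w, v = (p : ℤ_[p]) ^ N • w := by
  have : ∀ i, ∃ y, v i = (p : ℤ_[p]) ^ N * y := by
    intro i
    have h1 : v i ∈ RingHom.ker (PadicInt.toZModPow (p := p) N) := by
      rw [RingHom.mem_ker]
      exact congrFun hv i
    rw [PadicInt.ker_toZModPow, Ideal.mem_span_singleton] at h1
    exact h1
  choose y hy using this
  exact ⟨y, funext hy⟩

theorem span_cols {n : ℕ} (X : Fin n → Fin n → ℤ_[p]) :
    LinearMap.range (Matrix.of X).mulVecLin =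
      Submodule.span ℤ_[p] (Set.range (fun j i => X i j)) := by
  rw [Matrix.range_mulVecLin]
  rfl

theorem rho_mem {N n : ℕ} (X : Fin n → Fin n → ℤ_[p]) (v : Fin n → ℤ_[p])
    (hv : v ∈ LinearMap.range (Matrix.of X).mulVecLin) :
    rho p N n v ∈ Submodule.span (ZMod (p ^ N))
      (Set.range (fun j i => PadicInt.toZModPow N (X i j))) := by
  rw [span_cols] at hv
  induction hv using Submodule.span_induction with
  | mem x hx =>
    obtain ⟨j, rfl⟩ := hx
    exact Submodule.subset_span ⟨j, rfl⟩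
  | zero => rw [map_zero]; exact Submodule.zero_mem _
  | add x y _ _ hx hy => rw [map_add]; exact Submodule.add_mem _ hx hy
  | smul a x _ hx => rw [map_smulₛₗ]; exact Submodule.smul_mem _ _ hx

theorem rho_lift {N n : ℕ} (X : Fin n → Fin n → ℤ_[p]) (w : Fin n → ZMod (p ^ N))
    (hw : w ∈ Submodule.span (ZMod (p ^ N))
      (Set.range (fun j i => PadicInt.toZModPow N (X i j)))) :
    ∃ v ∈ LinearMap.range (Matrix.of X).mulVecLin, rho p N n v = w := by
  rw [span_cols]
  induction hw using Submodule.span_induction with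
  | mem x hx =>
    obtain ⟨j, rfl⟩ := hx
    exact ⟨fun i => X i j, Submodule.subset_span ⟨j, rfl⟩, rfl⟩
  | zero => exact ⟨0, Submodule.zero_mem _, map_zero _⟩
  | add x y _ _ hx hy =>
    obtain ⟨s, hs, rfl⟩ := hx
    obtain ⟨t, ht, rfl⟩ := hy
    exact ⟨s + t, Submodule.add_mem _ hs ht, map_add _ _ _⟩
  | smul a x _ hx =>
    obtain ⟨s, hs, rfl⟩ := hx
    obtain ⟨a', rfl⟩ := toZModPow_surj (p := p) N a
    exact ⟨a' • s, Submodule.smul_mem _ _ hs, map_smulₛₗ _ _ _⟩

/-- If `p ^ N` kills the cokernel, the cokernel is computed modulo `p ^ N`. -/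
theorem coker_equiv {N n : ℕ} (X : Fin n → Fin n → ℤ_[p])
    (h : ∀ v : Fin n → ℤ_[p], (p : ℤ_[p]) ^ N • v ∈ LinearMap.range (Matrix.of X).mulVecLin) :
    Nonempty (coker X ≃+ Cok (ZMod (p ^ N)) (fun j i => PadicInt.toZModPow N (X i j))) := by
  let S := Submodule.span (ZMod (p ^ N)) (Set.range (fun j i => PadicInt.toZModPow N (X i j)))
  let f : (Fin n → ℤ_[p]) →ₛₗ[PadicInt.toZModPow (p := p) N]
      Cok (ZMod (p ^ N)) (fun j i => PadicInt.toZModPow N (X i j)) :=
    S.mkQ.comp (rho p N n)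
  have hker : ∀ v, f v = 0 ↔ v ∈ LinearMap.range (Matrix.of X).mulVecLin := by
    intro v
    have h1 : f v = 0 ↔ rho p N n v ∈ S := by
      change S.mkQ (rho p N n v) = 0 ↔ _
      rw [Submodule.mkQ_apply, Submodule.Quotient.mk_eq_zero]
    rw [h1]
    constructor
    · intro h2
      obtain ⟨u, hu, hu'⟩ := rho_lift X _ h2
      obtain ⟨w, hw⟩ := mem_ker_rho N n (v - u) (by rw [map_sub, hu', sub_self])
      have : v = u + (p : ℤ_[p]) ^ N • w := by rw [← hw]; abel
      rw [this]
      exact Submodule.add_mem _ hu (h w)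
    · exact rho_mem X v
  let g := (LinearMap.range (Matrix.of X).mulVecLin).liftQ f (fun v hv => (hker v).2 hv)
  have hg : Function.Bijective g := by
    constructor
    · rw [← LinearMap.ker_eq_bot]
      apply Submodule.ker_liftQ_eq_bot
      intro v hv
      exact (hker v).1 hv
    · intro y
      obtain ⟨w, rfl⟩ := S.mkQ_surjective y
      obtain ⟨v, rfl⟩ := rho_surj N n w
      exact ⟨Submodule.Quotient.mk v, rfl⟩
  exact ⟨AddEquiv.ofBijective g hg⟩

theorem p_mem_jac' : Ideal.span {(p : ℤ_[p])} ≤ (⊥ : Ideal ℤ_[p]).jacobson := by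
  rw [IsLocalRing.jacobson_eq_maximalIdeal ⊥ bot_ne_top, PadicInt.maximalIdeal_eq_span_p]

theorem transfer_alg {N n : ℕ} (hN : N ≠ 0) (X : Fin n → Fin n → ℤ_[p])
    (G : Type) [AddCommGroup G] (hG : ∀ g : G, p ^ (N - 1) • g = 0) :
    Nonempty (coker X ≃+ G) ↔
      Nonempty (Cok (ZMod (p ^ N)) (fun j i => PadicInt.toZModPow N (X i j)) ≃+ G) := by
  set L := LinearMap.range (Matrix.of X).mulVecLin with hL
  have hpow : (p : ℤ_[p]) ^ N = p * (p : ℤ_[p]) ^ (N - 1) := by
    rw [← pow_succ', Nat.sub_add_cancel (Nat.one_le_iff_ne_zero.mpr hN)]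
  constructor
  · rintro ⟨e⟩
    have h1 : ∀ v : Fin n → ℤ_[p], (p : ℤ_[p]) ^ (N - 1) • v ∈ L := by
      intro v
      rw [← Submodule.Quotient.mk_eq_zero]
      have h2 : e ((p ^ (N - 1) : ℕ) • (Submodule.Quotient.mk v : coker X)) = 0 := by
        rw [map_nsmul]; exact hG _
      have h3 : (p ^ (N - 1) : ℕ) • (Submodule.Quotient.mk v : coker X) = 0 := by
        apply e.injective
        rw [h2, map_zero]
      rw [← Submodule.Quotient.mk_smul, ← Nat.cast_smul_eq_nsmul ℤ_[p]] at h3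
      push_cast at h3
      exact h3
    obtain ⟨g⟩ := coker_equiv (N := N) X (by
      intro v
      rw [hpow, mul_smul]
      exact Submodule.smul_mem _ _ (h1 v))
    exact ⟨g.symm.trans e⟩
  · rintro ⟨e⟩
    let K : Submodule ℤ_[p] (Fin n → ℤ_[p]) :=
      Submodule.map (LinearMap.lsmul ℤ_[p] (Fin n → ℤ_[p]) ((p : ℤ_[p]) ^ (N - 1))) ⊤
    have hK : ∀ v : Fin n → ℤ_[p], (p : ℤ_[p]) ^ (N - 1) • v ∈ K := fun v => ⟨v, trivial, rfl⟩
    have hKfg : K.FG := (Module.Finite.fg_top (R := ℤ_[p]) (M := Fin n → ℤ_[p])).map _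
    have h1 : K ≤ L := by
      apply Submodule.le_of_le_smul_of_le_jacobson_bot (I := Ideal.span {(p : ℤ_[p])}) hKfg
        p_mem_jac'
      rintro _ ⟨v, -, rfl⟩
      change (p : ℤ_[p]) ^ (N - 1) • v ∈ _
      let S := Submodule.span (ZMod (p ^ N)) (Set.range (fun j i => PadicInt.toZModPow N (X i j)))
      have h2 : rho p N n ((p : ℤ_[p]) ^ (N - 1) • v) ∈ S := by
        have h3 : (p ^ (N - 1) : ℕ) • (S.mkQ (rho p N n v)) = 0 := by
          apply e.injective
          rw [map_zero, map_nsmul]; exact hG _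
        rw [← map_nsmul, ← map_nsmul, Submodule.mkQ_apply, Submodule.Quotient.mk_eq_zero,
          ← Nat.cast_smul_eq_nsmul ℤ_[p]] at h3
        push_cast at h3
        exact h3
      obtain ⟨u, hu, hu'⟩ := rho_lift X _ h2
      obtain ⟨w, hw⟩ := mem_ker_rho N n ((p : ℤ_[p]) ^ (N - 1) • v - u)
        (by rw [map_sub, hu', sub_self])
      have : (p : ℤ_[p]) ^ (N - 1) • v = u + (p : ℤ_[p]) • ((p : ℤ_[p]) ^ (N - 1) • w) := by
        rw [← mul_smul, ← hpow, ← hw]; abel
      rw [this]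
      apply Submodule.add_mem_sup hu
      exact Submodule.smul_mem_smul (Ideal.mem_span_singleton_self _) (hK w)
    obtain ⟨g⟩ := coker_equiv (N := N) X (by
      intro v
      rw [hpow, mul_smul]
      exact Submodule.smul_mem _ _ (h1 (hK v)))
    exact ⟨g.trans e⟩

theorem meas_toZModPow (N : ℕ) : MeasurableSet {x : ℤ_[p] | PadicInt.toZModPow N x = 0} := by
  have : {x : ℤ_[p] | PadicInt.toZModPow N x = 0} = {x : ℤ_[p] | ‖x‖ ≤ (p : ℝ) ^ (-(N : ℤ))} := by
    ext x
    simp only [Set.mem_ofPred_eq]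
    rw [PadicInt.norm_le_pow_iff_mem_span_pow, ← PadicInt.ker_toZModPow, RingHom.mem_ker]
  rw [this]
  exact (isClosed_le continuous_norm continuous_const).measurableSet

theorem meas_toZMod : MeasurableSet {x : ℤ_[p] | PadicInt.toZMod x = 0} := by
  have : {x : ℤ_[p] | PadicInt.toZMod x = 0} = {x : ℤ_[p] | ‖x‖ ≤ (p : ℝ) ^ (-((1 : ℕ) : ℤ))} := by
    ext x
    simp only [Set.mem_ofPred_eq]
    rw [PadicInt.norm_le_pow_iff_mem_span_pow, pow_one, ← PadicInt.maximalIdeal_eq_span_p,
      ← PadicInt.ker_toZMod, RingHom.mem_ker]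
  rw [this]
  exact (isClosed_le continuous_norm continuous_const).measurableSet

theorem law_PG {N n : ℕ} (hN : N ≠ 0) (σ : Fin n → Set (Fin n))
    (G : Type) [AddCommGroup G] (hG : ∀ g : G, p ^ (N - 1) • g = 0) :
    (matLaw p n σ).real {X | Nonempty (coker X ≃+ G)} = PG p N n σ G := by
  haveI : Nontrivial (ZMod (p ^ N)) := by
    apply ZMod.nontrivial_iff.mpr
    exact (Nat.one_lt_pow hN hp.out.one_lt).ne'
  have h1 := law_transfer (p := p) (PadicInt.toZModPow N) (toZModPow_surj N) (meas_toZModPow N) σ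
    (fun M => Nonempty (Cok (ZMod (p ^ N)) M ≃+ G))
  unfold PG
  convert h1 using 2
  · ext X
    exact transfer_alg hN X G hG

theorem det_iff {n : ℕ} (X : Fin n → Fin n → ℤ_[p]) :
    ((Matrix.of X).map PadicInt.toZMod).det ≠ 0 ↔
      LinearIndependent (ZMod p) (fun j i => PadicInt.toZMod (X i j)) := by
  have h := Matrix.linearIndependent_cols_iff_isUnit (K := ZMod p)
    (A := (Matrix.of X).map PadicInt.toZMod)
  rw [Matrix.isUnit_iff_isUnit_det, isUnit_iff_ne_zero] at h
  exact h.symm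

theorem law_P0 {n : ℕ} (σ : Fin n → Set (Fin n)) :
    (matLaw p n σ).real {X | ((Matrix.of X).map PadicInt.toZMod).det ≠ 0} = P0 p n σ := by
  have h1 := law_transfer (p := p) PadicInt.toZMod toZMod_surj meas_toZMod σ
    (fun M => LinearIndependent (ZMod p) M)
  unfold P0
  convert h1 using 2
  · ext X
    exact det_iff X

theorem coker_trivial {n : ℕ} (X : Fin n → Fin n → ℤ_[p]) :
    Nonempty (coker X ≃+ PUnit.{1}) ↔ ((Matrix.of X).map PadicInt.toZMod).det ≠ 0 := by
  have h1 : Nonempty (coker X ≃+ PUnit.{1}) ↔ LinearMap.range (Matrix.of X).mulVecLin = ⊤ := by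
    rw [← Submodule.Quotient.subsingleton_iff]
    constructor
    · rintro ⟨e⟩
      exact e.toEquiv.subsingleton
    · intro h
      exact ⟨{ toFun := fun _ => PUnit.unit, invFun := fun _ => 0,
               left_inv := fun x => Subsingleton.elim _ _, right_inv := fun _ => rfl,
               map_add' := fun _ _ => rfl }⟩
  rw [h1, LinearMap.range_eq_top]
  have h2 : Function.Surjective (Matrix.of X).mulVecLin ↔ IsUnit (Matrix.of X) :=
    Matrix.mulVec_surjective_iff_isUnit
  rw [h2, Matrix.isUnit_iff_isUnit_det]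
  have h3 : ((Matrix.of X).map PadicInt.toZMod).det = PadicInt.toZMod (Matrix.of X).det := by
    rw [RingHom.map_det]; rfl
  rw [h3]
  have h4 : ∀ x : ℤ_[p], PadicInt.toZMod x = 0 ↔ ¬ IsUnit x := by
    intro x
    rw [← RingHom.mem_ker, PadicInt.ker_toZMod, IsLocalRing.mem_maximalIdeal]
    rfl
  rw [Ne, h4, not_not]

theorem clMass_punit : clMass p PUnit.{1} = cinf p := by
  unfold clMass
  have : Nat.card (AddAut PUnit.{1}) = 1 := by
    haveI : Subsingleton (AddAut PUnit.{1}) := ⟨fun a b => by ext⟩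
    exact Nat.card_of_subsingleton (AddEquiv.refl PUnit.{1} : AddAut PUnit.{1})
  rw [this]
  simp

end Pool.Agent.R979.CL
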